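import Pool.Agent.J4H58.OC.Stm2
import Pool.Agent.R972.OP.Stm3

/-!
# From Poincaré's to Cheeger's inequality for log-concave densities (project OC, MP_6d896a_gt)
-/

set_option autoImplicit false

namespace Pool.Agent.J4H58.OC

open MeasureTheory Set Filter Topology ProbabilityTheory
open scoped ENNReal
open Pool.Agent.W695.KH (Eu EU Sm Pot)

/-- log-concave probability density on `ℝⁿ` -/
structure LDn {n : ℕ} (ρ : Eu (Fin n) → ℝ) : Prop where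
  nonneg : ∀ x, 0 ≤ ρ x
  meas : Measurable ρ
  logc : ∀ x y, ∀ t : ℝ, 0 < t → t < 1 → ρ x ^ (1 - t) * ρ y ^ t ≤ ρ ((1 - t) • x + t • y)
  int : Integrable ρ
  one : ∫ x, ρ x = 1

/-- OC-DEN: the law has a log-concave density (`ρ = c ∏ w(x_i)` on the cone; log-concave functions on
the line are measurable because the sets `{w > c}` are intervals) -/
def S_DEN : Prop := ∀ (w : ℝ → ℝ) (n : ℕ) (R : Fin n → Fin n → Prop), LD w →
  pn w n (ord R) ≠ 0 → ∃ ρ : Eu (Fin n) → ℝ, LDn ρ ∧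
    law w R = volume.withDensity fun x => ENNReal.ofReal (ρ x)

/-- OC-APX: approximation in `L¹` by smooth potentials: either the convolution with a narrow
Gaussian (`x - b x / A` is the posterior mean, which does not expand distances), or the Moreau
envelope of `-log ρ` (`x - b x / A` is the proximal map) -/
def S_APX : Prop := ∀ (n : ℕ) (ρ : Eu (Fin n) → ℝ), 1 ≤ n → LDn ρ → ∀ ε : ℝ, 0 < ε →
  ∃ (U : Eu (Fin n) → ℝ) (b : Eu (Fin n) → Eu (Fin n)) (A : ℝ), Pot U b A ∧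
    EU U (fun _ => 1) = 1 ∧ ∫ x, |Real.exp (-U x) - ρ x| ≤ ε

/-- OC-BUS: from Poincaré's inequality to the `L¹` inequality (adapt `R310.OP2.Body.bodl`; the energy
of `|v| ≤ 1`, `‖∇v‖ ≤ L₀` changes by at most `(1 + L₀²) ε`) -/
def S_BUS : Prop := ∀ (n : ℕ) (ρ : Eu (Fin n) → ℝ), 1 ≤ n → LDn ρ → ∀ K : ℝ, 0 < K →
  (∀ v : Eu (Fin n) → ℝ, ContDiff ℝ 1 v → (∀ x, |v x| ≤ 1) → (∃ L, ∀ x, ‖fderiv ℝ v x‖ ≤ L) →
    (∫ x, v x ^ 2 * ρ x) - (∫ x, v x * ρ x) ^ 2 ≤ K * ∫ x, ‖fderiv ℝ v x‖ ^ 2 * ρ x) →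
  ∀ (f : Eu (Fin n) → ℝ) (L M : ℝ), Sm f L M → (∀ x, |f x| ≤ 1 / 2) →
  (∫ x, f x ^ 2 * ρ x) - (∫ x, f x * ρ x) ^ 2 ≤ 4 * Real.sqrt K * ∫ x, ‖fderiv ℝ f x‖ * ρ x

/-- OC-MKL: from smooth functions to sets, at all levels, for probability measures (adapt
`Y429.RG.minkm`, `W800.KH.t_mink`) -/
def S_MKL : Prop := ∀ (κ : Type) [Fintype κ] (μ : Measure (Eu κ)) [IsProbabilityMeasure μ]
  (B : ℝ), 0 < B → (∀ (f : Eu κ → ℝ) (L M : ℝ), Sm f L M → (∀ x, |f x| ≤ 1 / 2) →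
    (∫ x, f x ^ 2 ∂μ) - (∫ x, f x ∂μ) ^ 2 ≤ B * ∫ x, ‖fderiv ℝ f x‖ ∂μ) →
  ∀ S : Set (Eu κ), MeasurableSet S → μ S * (1 - μ S) ≤ ENNReal.ofReal B *
    liminf (fun ε : ℝ => (μ (Metric.thickening ε S) - μ S) / ENNReal.ofReal ε) (𝓝[>] 0)

end Pool.Agent.J4H58.OC
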