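import Pool.Agent.J4H58.OC.Asm2
import Pool.Agent.J4H58.OC.Stm3
import Pool.Agent.J4H52.OC.Den
import Pool.Agent.J4H8.OC.Bus
import Pool.Agent.J4H8.OC.Mkl

/-! Assembly, part 3: Cheeger's inequality. -/

set_option autoImplicit false

namespace Pool.Agent.J4H58.OC

open MeasureTheory Set Filter Topology ProbabilityTheory
open scoped ENNReal InnerProductSpace
open Pool.Agent.W695.KH (Eu EU EV VV Sm)

variable {n : ℕ}

/-- integrals with a density -/
theorem int_dens {ρ : Eu (Fin n) → ℝ} (hρ : LDn ρ) (G : Eu (Fin n) → ℝ) :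
    ∫ x, G x ∂(volume.withDensity fun x => ENNReal.ofReal (ρ x)) = ∫ x, G x * ρ x := by
  rw [integral_withDensity_eq_integral_toReal_smul hρ.meas.ennreal_ofReal
    (Eventually.of_forall fun x => ENNReal.ofReal_lt_top)]
  apply integral_congr_ae
  refine Eventually.of_forall fun x => ?_
  show (ENNReal.ofReal (ρ x)).toReal • G x = G x * ρ x
  rw [ENNReal.toReal_ofReal (hρ.nonneg x), smul_eq_mul, mul_comm]

/-- Poincaré's inequality implies Cheeger's inequality, for all log-concave densities on `ℝⁿ`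
(Buser, Ledoux) -/
theorem cheeger (hA : S_APX) {ρ : Eu (Fin n) → ℝ} (hn : 1 ≤ n) (hρ : LDn ρ) {K : ℝ} (hK : 0 < K)
    (hPI : PI (volume.withDensity fun x => ENNReal.ofReal (ρ x)) K) (S : Set (Eu (Fin n)))
    (hS : MeasurableSet S) :
    (volume.withDensity fun x => ENNReal.ofReal (ρ x)) S *
      (1 - (volume.withDensity fun x => ENNReal.ofReal (ρ x)) S) ≤
      ENNReal.ofReal (4 * Real.sqrt K) * liminf (fun ε : ℝ =>
        ((volume.withDensity fun x => ENNReal.ofReal (ρ x)) (Metric.thickening ε S) -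
          (volume.withDensity fun x => ENNReal.ofReal (ρ x)) S) / ENNReal.ofReal ε) (𝓝[>] 0) := by
  set μ : Measure (Eu (Fin n)) := volume.withDensity fun x => ENNReal.ofReal (ρ x) with hμ
  have hprob : IsProbabilityMeasure μ := by
    refine ⟨?_⟩
    rw [hμ, withDensity_apply _ MeasurableSet.univ, setLIntegral_univ,
      ← ofReal_integral_eq_lintegral_ofReal hρ.int (Eventually.of_forall hρ.nonneg), hρ.one]
    simp
  have hbus := Pool.Agent.J4H8.OC.t_BUS hA n ρ hn hρ K hK (by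
    intro v hv hv1 ⟨L, hL⟩
    have h1 := hPI v hv
    rw [← int_dens hρ, ← int_dens hρ, ← int_dens hρ, ← hμ]
    have hvc := hv.continuous
    have hvm : MemLp v 2 μ := MemLp.of_bound hvc.aestronglyMeasurable 1
      (Eventually.of_forall fun x => by rw [Real.norm_eq_abs]; exact hv1 x)
    have hgc : Continuous fun x => ‖fderiv ℝ v x‖ ^ 2 :=
      (hv.continuous_fderiv one_ne_zero).norm.pow 2
    have hgi : Integrable (fun x => ‖fderiv ℝ v x‖ ^ 2) μ :=
      Integrable.of_bound hgc.aestronglyMeasurable (L ^ 2) (Eventually.of_forall fun x => by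
        rw [Real.norm_eq_abs, abs_of_nonneg (by positivity)]
        exact pow_le_pow_left₀ (norm_nonneg _) (hL x) 2)
    have h2 : (∫ x, v x ^ 2 ∂μ) - (∫ x, v x ∂μ) ^ 2 = variance v μ := by
      rw [variance_eq_sub hvm]
      rfl
    rw [h2]
    have h3 : ENNReal.ofReal (variance v μ) ≤
        ENNReal.ofReal (K * ∫ x, ‖fderiv ℝ v x‖ ^ 2 ∂μ) := by
      rw [ofReal_variance hvm, ENNReal.ofReal_mul hK.le,
        ofReal_integral_eq_lintegral_ofReal hgi (Eventually.of_forall fun x => by positivity)]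
      exact h1
    exact (ENNReal.ofReal_le_ofReal_iff (mul_nonneg hK.le
      (integral_nonneg fun x => by positivity))).1 h3)
  refine Pool.Agent.J4H8.OC.t_MKL (Fin n) μ (4 * Real.sqrt K) (by positivity) ?_ S hS
  intro f L M hf hfb
  have h1 := hbus f L M hf hfb
  rw [← int_dens hρ, ← int_dens hρ, ← int_dens hρ, ← hμ] at h1
  exact h1

/-- `min (p, 1 - p) ≤ 2 p (1 - p)` -/
theorem min_le_two {p : ℝ≥0∞} (hp : p ≤ 1) : min p (1 - p) ≤ 2 * (p * (1 - p)) := by
  have h1 : p + (1 - p) = 1 := add_tsub_cancel_of_le hp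
  rcases le_total p (1 - p) with h | h
  · rw [min_eq_left h]
    calc p = p * (p + (1 - p)) := by rw [h1, mul_one]
      _ ≤ p * ((1 - p) + (1 - p)) := by gcongr
      _ = 2 * (p * (1 - p)) := by ring
  · rw [min_eq_right h]
    calc 1 - p = (1 - p) * (p + (1 - p)) := by rw [h1, mul_one]
      _ ≤ (1 - p) * (p + p) := by gcongr
      _ = 2 * (p * (1 - p)) := by ring

/-- **KLS for the conditioned points, all measurable sets** -/
theorem kls_sets (hA : S_APX) {w : ℝ → ℝ} (hw : LD w) (hn : 1 ≤ n) (R : Fin n → Fin n → Prop)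
    (hR : pn w n (ord R) ≠ 0) {σ : ℝ} (hσ : 0 < σ)
    (h : ∀ θ : EuclideanSpace ℝ (Fin n), ‖θ‖ = 1 → variance (fun x => ⟪x, θ⟫_ℝ) (law w R) ≤ σ)
    (S : Set (EuclideanSpace ℝ (Fin n))) (hS : MeasurableSet S) :
    ENNReal.ofReal (1 / 56 / Real.sqrt σ) * min (law w R S) (law w R Sᶜ) ≤
      liminf (fun ε : ℝ => (law w R (Metric.thickening ε S) - law w R S) / ENNReal.ofReal ε)
        (𝓝[>] 0) := by
  have hprob := law_prob hw hR
  obtain ⟨ρ, hρ, hlaw⟩ := Pool.Agent.J4H52.OC.t_DEN w n R hw hR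
  have hPI := pi_kls hw hn R hR hσ h
  rw [hlaw] at hPI
  have h1 := cheeger hA hn hρ (by positivity) hPI S hS
  rw [← hlaw] at h1
  set μ := law w R with hμ
  set P := liminf (fun ε : ℝ => (μ (Metric.thickening ε S) - μ S) / ENNReal.ofReal ε) (𝓝[>] 0)
    with hP
  have hsq : 0 < Real.sqrt σ := Real.sqrt_pos.2 hσ
  have h2 : Real.sqrt (48 * σ) ≤ 7 * Real.sqrt σ := by
    rw [Real.sqrt_le_left (by positivity), mul_pow, Real.sq_sqrt hσ.le]
    linarith
  rw [prob_compl_eq_one_sub hS]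
  have h3 := min_le_two (p := μ S) prob_le_one
  calc ENNReal.ofReal (1 / 56 / Real.sqrt σ) * min (μ S) (1 - μ S)
      ≤ ENNReal.ofReal (1 / 56 / Real.sqrt σ) * (2 * (μ S * (1 - μ S))) := by gcongr
    _ ≤ ENNReal.ofReal (1 / 56 / Real.sqrt σ) * (2 * (ENNReal.ofReal (4 * Real.sqrt (48 * σ)) * P)) := by
        gcongr
    _ ≤ ENNReal.ofReal (1 / 56 / Real.sqrt σ) * (2 * (ENNReal.ofReal (28 * Real.sqrt σ) * P)) := by
        have h4 : ENNReal.ofReal (4 * Real.sqrt (48 * σ)) ≤ ENNReal.ofReal (28 * Real.sqrt σ) :=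
          ENNReal.ofReal_le_ofReal (by linarith)
        gcongr
    _ = P := by
        have e1 : (2 : ℝ≥0∞) = ENNReal.ofReal 2 := by norm_num
        rw [e1, ← mul_assoc, ← mul_assoc, ← ENNReal.ofReal_mul (by positivity),
          ← ENNReal.ofReal_mul (by positivity)]
        have e2 : 1 / 56 / Real.sqrt σ * 2 * (28 * Real.sqrt σ) = 1 := by
          field_simp
          norm_num
        rw [e2, ENNReal.ofReal_one, one_mul]

end Pool.Agent.J4H58.OC
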