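import Pool.Agent.J4H58.OC.Stm

/-! OC-GL: the logistic weight on the lattice. -/

set_option autoImplicit false

namespace Pool.Agent.J4H58.OC.Gl

open Pool.Agent.R972.OP (WC)

/-- second difference of `√(j (N - j))` -/
theorem key {a b : ℝ} (ha : 1 ≤ a) (hb : 1 ≤ b) :
    √((a + 1) * (b - 1)) + √((a - 1) * (b + 1)) ≤
      2 * √(a * b) * (1 - (a + b) ^ 2 / (8 * (a * b) ^ 2)) := by
  have hab : 0 < a * b := by positivity
  have h1 : 0 ≤ (a + 1) * (b - 1) := mul_nonneg (by linarith) (by linarith)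
  have h2 : 0 ≤ (a - 1) * (b + 1) := mul_nonneg (by linarith) (by linarith)
  set p := √((a + 1) * (b - 1)) with hp
  set q := √((a - 1) * (b + 1)) with hq
  set r := √(a * b) with hr
  have hp2 : p ^ 2 = (a + 1) * (b - 1) := Real.sq_sqrt h1
  have hq2 : q ^ 2 = (a - 1) * (b + 1) := Real.sq_sqrt h2
  have hr2 : r ^ 2 = a * b := Real.sq_sqrt hab.le
  have hp0 : 0 ≤ p := Real.sqrt_nonneg _
  have hq0 : 0 ≤ q := Real.sqrt_nonneg _
  have hr0 : 0 ≤ r := Real.sqrt_nonneg _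
  have hsum : a + b ≤ 2 * (a * b) := by nlinarith
  -- product
  have hE : 0 ≤ a * b - (a ^ 2 + b ^ 2) / (2 * (a * b)) ∧
      (p * q) ^ 2 ≤ (a * b - (a ^ 2 + b ^ 2) / (2 * (a * b))) ^ 2 := by
    constructor
    · rw [sub_nonneg, div_le_iff₀ (by positivity)]
      nlinarith [mul_nonneg (sub_nonneg.2 ha) (sub_nonneg.2 hb), sq_nonneg (a - b),
        mul_nonneg (mul_nonneg (sub_nonneg.2 ha) (sub_nonneg.2 hb)) hab.le,
        mul_nonneg (sub_nonneg.2 ha) (sub_nonneg.2 ha),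
        mul_nonneg (mul_nonneg (sub_nonneg.2 ha) (sub_nonneg.2 ha)) (sub_nonneg.2 hb),
        mul_nonneg (mul_nonneg (sub_nonneg.2 hb) (sub_nonneg.2 hb)) (sub_nonneg.2 ha),
        sq_nonneg (a * b - 1), mul_self_nonneg (a^2 - 1), mul_self_nonneg (b^2 - 1),
        mul_nonneg (show 0 ≤ a ^ 2 - 1 by nlinarith) (show 0 ≤ b ^ 2 - 1 by nlinarith)]
    · have e1 : (p * q) ^ 2 = (a ^ 2 - 1) * (b ^ 2 - 1) := by
        rw [mul_pow, hp2, hq2]
        ring
      have e2 : (a * b - (a ^ 2 + b ^ 2) / (2 * (a * b))) ^ 2 =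
          a ^ 2 * b ^ 2 - (a ^ 2 + b ^ 2) + ((a ^ 2 + b ^ 2) / (2 * (a * b))) ^ 2 := by
        field_simp
        ring
      rw [e1, e2]
      have e3 : 1 ≤ ((a ^ 2 + b ^ 2) / (2 * (a * b))) ^ 2 := by
        have : 1 ≤ (a ^ 2 + b ^ 2) / (2 * (a * b)) := by
          rw [le_div_iff₀ (by positivity)]
          nlinarith [sq_nonneg (a - b)]
        nlinarith
      nlinarith
  have hpq : p * q ≤ a * b - (a ^ 2 + b ^ 2) / (2 * (a * b)) :=
    (abs_le_of_sq_le_sq' hE.2 hE.1).2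
  have hyle : (a + b) ^ 2 / (4 * (a * b) ^ 2) ≤ 1 := by
    rw [div_le_one (by positivity)]
    nlinarith
  set y := (a + b) ^ 2 / (4 * (a * b) ^ 2) with hy
  have hy0 : 0 ≤ y := by positivity
  have hy8 : (a + b) ^ 2 / (8 * (a * b) ^ 2) = y / 2 := by
    rw [hy]
    field_simp
    ring
  rw [hy8]
  have hsq : (p + q) ^ 2 ≤ (2 * r * (1 - y / 2)) ^ 2 := by
    have e1 : (p + q) ^ 2 = p ^ 2 + q ^ 2 + 2 * (p * q) := by ring
    have e2 : (2 * r * (1 - y / 2)) ^ 2 = 4 * (a * b) * (1 - y / 2) ^ 2 := by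
      rw [mul_pow, mul_pow, hr2]
      ring
    have e3 : 2 * (a * b - (a ^ 2 + b ^ 2) / (2 * (a * b))) + (2 * (a * b) - 2) =
        4 * (a * b) * (1 - y) := by
      rw [hy]
      field_simp
      ring
    have e4 : 4 * (a * b) * (1 - y) ≤ 4 * (a * b) * (1 - y / 2) ^ 2 := by
      apply mul_le_mul_of_nonneg_left _ (by positivity)
      nlinarith
    rw [e1, e2, hp2, hq2]
    nlinarith
  have h0 : 0 ≤ 2 * r * (1 - y / 2) := mul_nonneg (by positivity) (by linarith)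
  exact (abs_le_of_sq_le_sq' hsq h0).2

/-- the function `√(j (N - j))` -/
noncomputable def G (N j : ℕ) : ℝ := √((j : ℝ) * ((N : ℝ) - j))

theorem second {N j : ℕ} (hj : j + 1 < N) :
    G N (j + 1) * ((N : ℝ) ^ 2 / (4 * (((j : ℝ) + 1) * ((N : ℝ) - (j + 1))) ^ 2)) ≤
      2 * G N (j + 1) - G N (j + 2) - G N j ∧ 0 < G N (j + 1) := by
  have hjN : (j : ℝ) + 2 ≤ N := by exact_mod_cast hj
  have hj0 : (0 : ℝ) ≤ j := Nat.cast_nonneg j
  have h := key (a := (j : ℝ) + 1) (b := (N : ℝ) - (j + 1)) (by linarith) (by linarith)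
  have e1 : √(((j : ℝ) + 1 + 1) * ((N : ℝ) - (j + 1) - 1)) = G N (j + 2) := by
    unfold G
    congr 1
    push_cast
    ring
  have e2 : √(((j : ℝ) + 1 - 1) * ((N : ℝ) - (j + 1) + 1)) = G N j := by
    unfold G
    congr 1
    ring
  have e3 : √(((j : ℝ) + 1) * ((N : ℝ) - (j + 1))) = G N (j + 1) := by
    unfold G
    congr 1
    push_cast
    ring
  have hpos : 0 < ((j : ℝ) + 1) * ((N : ℝ) - (j + 1)) := mul_pos (by linarith) (by linarith)
  rw [e1, e2, e3] at h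
  have e4 : (j : ℝ) + 1 + ((N : ℝ) - (j + 1)) = N := by ring
  rw [e4] at h
  refine ⟨?_, ?_⟩
  · have e5 : G N (j + 1) * ((N : ℝ) ^ 2 / (4 * (((j : ℝ) + 1) * ((N : ℝ) - (j + 1))) ^ 2)) =
        2 * G N (j + 1) * ((N : ℝ) ^ 2 / (8 * (((j : ℝ) + 1) * ((N : ℝ) - (j + 1))) ^ 2)) := by
      field_simp
      ring
    rw [e5]
    linarith
  · rw [← e3]
    exact Real.sqrt_pos.2 hpos

theorem gl : S_GL := by
  intro N hN
  have hN0 : (0 : ℝ) < N := by exact_mod_cast hN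
  refine ⟨fun j => G N j - G N (j + 1),
    fun j => G N (j + 1) / (2 * G N (j + 1) - G N (j + 2) - G N j), 0, ⟨?_, ?_, ?_⟩, ?_⟩
  · intro k hk
    obtain ⟨h1, h2⟩ := second hk
    have hk2 : (k : ℝ) + 2 ≤ N := by exact_mod_cast hk
    have hk0 : (0 : ℝ) ≤ k := Nat.cast_nonneg k
    have h3 : 0 < ((k : ℝ) + 1) * ((N : ℝ) - (k + 1)) := mul_pos (by linarith) (by linarith)
    have h4 : 0 < G N (k + 1) * ((N : ℝ) ^ 2 / (4 * (((k : ℝ) + 1) * ((N : ℝ) - (k + 1))) ^ 2)) := by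
      positivity
    show G N k - G N (k + 1) < G N (k + 1) - G N (k + 2)
    linarith
  · intro k hk
    obtain ⟨h1, h2⟩ := second hk
    have hk2 : (k : ℝ) + 2 ≤ N := by exact_mod_cast hk
    have hk0 : (0 : ℝ) ≤ k := Nat.cast_nonneg k
    have h3 : 0 < ((k : ℝ) + 1) * ((N : ℝ) - (k + 1)) := mul_pos (by linarith) (by linarith)
    have h4 : 0 < G N (k + 1) * ((N : ℝ) ^ 2 / (4 * (((k : ℝ) + 1) * ((N : ℝ) - (k + 1))) ^ 2)) := by
      positivity
    exact div_nonneg h2.le (by linarith)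
  · intro j hj
    have e1 : (if j + 1 < N then G N (j + 1) / (2 * G N (j + 1) - G N (j + 2) - G N j) *
        ((G N (j + 1) - G N (j + 1 + 1)) - (G N j - G N (j + 1))) else 0) = G N (j + 1) := by
      split_ifs with h
      · obtain ⟨h1, h2⟩ := second h
        have hk2 : (j : ℝ) + 2 ≤ N := by exact_mod_cast h
        have hk0 : (0 : ℝ) ≤ j := Nat.cast_nonneg j
        have h3 : 0 < ((j : ℝ) + 1) * ((N : ℝ) - (j + 1)) := mul_pos (by linarith) (by linarith)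
        have h4 : 0 < G N (j + 1) * ((N : ℝ) ^ 2 / (4 * (((j : ℝ) + 1) * ((N : ℝ) - (j + 1))) ^ 2)) := by
          positivity
        have h5 : 2 * G N (j + 1) - G N (j + 2) - G N j ≠ 0 := by linarith
        have h6 : (G N (j + 1) - G N (j + 1 + 1)) - (G N j - G N (j + 1)) =
            2 * G N (j + 1) - G N (j + 2) - G N j := by ring
        rw [h6, div_mul_cancel₀ _ h5]
      · have hjN : j + 1 = N := by omega
        rw [← hjN]
        unfold G
        simp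
    have e2 : (if 0 < j then G N (j - 1 + 1) / (2 * G N (j - 1 + 1) - G N (j - 1 + 2) - G N (j - 1)) *
        ((G N j - G N (j + 1)) - (G N (j - 1) - G N (j - 1 + 1))) else 0) = G N j := by
      split_ifs with h
      · obtain ⟨i, rfl⟩ : ∃ i, j = i + 1 := ⟨j - 1, by omega⟩
        obtain ⟨h1, h2⟩ := second (N := N) (j := i) hj
        have hk2 : (i : ℝ) + 2 ≤ N := by exact_mod_cast hj
        have hk0 : (0 : ℝ) ≤ i := Nat.cast_nonneg i
        have h3 : 0 < ((i : ℝ) + 1) * ((N : ℝ) - (i + 1)) := mul_pos (by linarith) (by linarith)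
        have h4 : 0 < G N (i + 1) * ((N : ℝ) ^ 2 / (4 * (((i : ℝ) + 1) * ((N : ℝ) - (i + 1))) ^ 2)) := by
          positivity
        have h5 : 2 * G N (i + 1) - G N (i + 2) - G N i ≠ 0 := by linarith
        simp only [Nat.add_sub_cancel]
        have h6 : (G N (i + 1) - G N (i + 1 + 1)) - (G N i - G N (i + 1)) =
            2 * G N (i + 1) - G N (i + 2) - G N i := by ring
        rw [h6, div_mul_cancel₀ _ h5]
      · have hj0 : j = 0 := by omega
        subst hj0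
        unfold G
        simp
    show (if j + 1 < N then G N (j + 1) / (2 * G N (j + 1) - G N (j + 2) - G N j) *
        ((G N (j + 1) - G N (j + 1 + 1)) - (G N j - G N (j + 1))) else 0) -
      (if 0 < j then G N (j - 1 + 1) / (2 * G N (j - 1 + 1) - G N (j - 1 + 2) - G N (j - 1)) *
        ((G N j - G N (j + 1)) - (G N (j - 1) - G N (j - 1 + 1))) else 0) =
      0 - (G N j - G N (j + 1))
    rw [e1, e2]
    ring
  · intro k hk
    obtain ⟨h1, h2⟩ := second hk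
    have hk2 : (k : ℝ) + 2 ≤ N := by exact_mod_cast hk
    have hk0 : (0 : ℝ) ≤ k := Nat.cast_nonneg k
    have h3 : 0 < ((k : ℝ) + 1) * ((N : ℝ) - (k + 1)) := mul_pos (by linarith) (by linarith)
    have h4 : 0 < G N (k + 1) * ((N : ℝ) ^ 2 / (4 * (((k : ℝ) + 1) * ((N : ℝ) - (k + 1))) ^ 2)) := by
      positivity
    show G N (k + 1) / (2 * G N (k + 1) - G N (k + 2) - G N k) ≤ _
    have h5 : 0 < 2 * G N (k + 1) - G N (k + 2) - G N k := by linarith
    rw [div_le_iff₀ h5]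
    unfold rt
    have e : (N : ℝ) ^ 2 * (4 * (((k : ℝ) + 1) / N * (1 - ((k : ℝ) + 1) / N)) ^ 2) =
        4 * (((k : ℝ) + 1) * ((N : ℝ) - (k + 1))) ^ 2 / (N : ℝ) ^ 2 := by
      field_simp
    rw [e]
    have h7 : (4 * (((k : ℝ) + 1) * ((N : ℝ) - (k + 1))) ^ 2) ≠ 0 := by positivity
    have h6 : G N (k + 1) = 4 * (((k : ℝ) + 1) * ((N : ℝ) - (k + 1))) ^ 2 / (N : ℝ) ^ 2 *
        (G N (k + 1) * ((N : ℝ) ^ 2 / (4 * (((k : ℝ) + 1) * ((N : ℝ) - (k + 1))) ^ 2))) := by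
      generalize 4 * (((k : ℝ) + 1) * ((N : ℝ) - (k + 1))) ^ 2 = Z at h7
      field_simp
    calc G N (k + 1) = _ := h6
      _ ≤ _ := mul_le_mul_of_nonneg_left h1 (by positivity)

end Pool.Agent.J4H58.OC.Gl
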