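import Pool.Agent.J4H58.OC.Stm
import Pool.Agent.R874.OP.Upb
import Pool.Agent.R972.OP.All

/-! OC-LIM: the weighted Poincare inequality on order polytopes (after `R874.OP.Upb`, `R874.OP.Pob`). -/

set_option autoImplicit false

namespace Pool.Agent.J4H58.OC.Lim

open MeasureTheory Set Filter Topology Pool.Agent.R972.OP Pool.Agent.R874.OP
open Pool.Agent.J4H58.OC (rt)

variable {n : ℕ} {f : (Fin n → ℝ) → ℝ} {b : ℝ → ℝ}

/-- the left hand side -/
noncomputable def lhs (b : ℝ → ℝ) (f : (Fin n → ℝ) → ℝ) (N : ℕ) (g : Fin n → ℕ) : ℝ :=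
  ∑ a, (if g a + 1 < N then
      rt b N (g a) * (f (lp N (Function.update g a (g a + 1))) - f (lp N g)) ^ 2 else 0) +
    ∑ a, (if 0 < g a then
      rt b N (g a - 1) * (f (lp N (Function.update g a (g a - 1))) - f (lp N g)) ^ 2 else 0)

theorem ev (hb : ContinuousOn b (Icc 0 1)) (hb0 : ∀ x ∈ Icc (0 : ℝ) 1, 0 ≤ b x)
    (hf : ContDiff ℝ 1 f) (ε : ℝ) (hε : 0 < ε) : ∃ N0 : ℕ, ∀ N : ℕ, N0 ≤ N → 0 < N →
    ∀ g : Fin n → ℕ, (∀ a, g a < N) →
    lhs b f N g ≤ 2 * ∑ a, b (lp N g a) * pd f a (lp N g) ^ 2 + ε := by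
  have hK : IsCompact (Icc (0 : Fin n → ℝ) 1) := isCompact_Icc
  have hK1 : IsCompact (Icc (0 : ℝ) 1) := isCompact_Icc
  set Q : (Fin n → ℝ) → (Fin n → ℝ) := fun x a => pd f a x ^ 2 with hQ
  have hQc : Continuous Q := continuous_pi fun a => (pd_cont hf a).pow 2
  obtain ⟨B, hB⟩ := hK.exists_bound_of_continuousOn hQc.continuousOn
  obtain ⟨A, hA⟩ := hK1.exists_bound_of_continuousOn hb
  have hB' : ∀ x ∈ Icc (0 : Fin n → ℝ) 1, ∀ a, pd f a x ^ 2 ≤ |B| := by
    intro x hx a
    have h1 := (norm_le_pi_norm (Q x) a).trans (hB x hx)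
    rw [Real.norm_eq_abs, hQ] at h1
    exact (le_abs_self _).trans (h1.trans (le_abs_self _))
  have hA' : ∀ x ∈ Icc (0 : ℝ) 1, b x ≤ |A| := by
    intro x hx
    have h1 := hA x hx
    rw [Real.norm_eq_abs] at h1
    exact (le_abs_self _).trans (h1.trans (le_abs_self _))
  have huc := hK.uniformContinuousOn_of_continuous hQc.continuousOn
  rw [Metric.uniformContinuousOn_iff] at huc
  have hub := hK1.uniformContinuousOn_of_continuous hb
  rw [Metric.uniformContinuousOn_iff] at hub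
  set D : ℝ := 2 * (n : ℝ) * (|A| + |B| + 1) + 1 with hD
  have hD0 : 0 < D := by positivity
  set η : ℝ := min 1 (ε / D) with hη
  have hη0 : 0 < η := lt_min one_pos (by positivity)
  have hη1 : η ≤ 1 := min_le_left _ _
  have hηD : η * D ≤ ε := by
    have h1 : η ≤ ε / D := min_le_right _ _
    rwa [le_div_iff₀ hD0] at h1
  obtain ⟨δ, hδ, huc⟩ := huc η hη0
  obtain ⟨δ', hδ', hub⟩ := hub η hη0
  have hlim2 : ∀ᶠ N : ℕ in atTop, 1 / (N : ℝ) < min δ δ' := by
    have h1 : Tendsto (fun N : ℕ => 1 / (N : ℝ)) atTop (𝓝 0) := tendsto_one_div_atTop_nhds_zero_nat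
    exact h1.eventually_lt_const (lt_min hδ hδ')
  obtain ⟨N0, hN0⟩ := eventually_atTop.1 hlim2
  refine ⟨N0, fun N hN hNp g hg => ?_⟩
  have hd := hN0 N hN
  have hd1 : 1 / (N : ℝ) < δ := lt_of_lt_of_le hd (min_le_left _ _)
  have hd2 : 1 / (N : ℝ) < δ' := lt_of_lt_of_le hd (min_le_right _ _)
  have hN' : (0 : ℝ) < N := by exact_mod_cast hNp
  have hx := lp_mem hNp fun a => (hg a).le
  have hxa : ∀ a, lp N g a ∈ Icc (0 : ℝ) 1 := fun a => ⟨hx.1 a, hx.2 a⟩
  -- one move
  have hterm : ∀ (a : Fin n) (t y : ℝ), |t| = 1 / (N : ℝ) → y ∈ Icc (0 : ℝ) 1 →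
      |y - lp N g a| ≤ 1 / (N : ℝ) →
      lp N g + t • Pi.single a (1 : ℝ) ∈ Icc (0 : Fin n → ℝ) 1 →
      (N : ℝ) ^ 2 * b y * (f (lp N g + t • Pi.single a (1 : ℝ)) - f (lp N g)) ^ 2 ≤
        b (lp N g a) * pd f a (lp N g) ^ 2 + (|A| + |B| + 1) * η := by
    intro a t y ht hy hya hmem
    obtain ⟨ξ, hξ, hdist, he⟩ := mvt hf a t hx hmem
    rw [he, mul_pow, ← sq_abs t, ht]
    have h1 := huc ξ hξ (lp N g) hx (by rw [ht] at hdist; exact lt_of_le_of_lt hdist hd1)
    have h2 := lt_of_le_of_lt (dist_le_pi_dist (Q ξ) (Q (lp N g)) a) h1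
    rw [Real.dist_eq, hQ] at h2
    have h3 := (abs_lt.1 h2).2
    simp only at h3
    have h5 := hub y hy (lp N g a) (hxa a) (by
      rw [Real.dist_eq]
      exact lt_of_le_of_lt hya hd2)
    rw [Real.dist_eq] at h5
    have h6 := (abs_lt.1 h5).2
    have h4 : (N : ℝ) ^ 2 * b y * ((1 / (N : ℝ)) ^ 2 * pd f a ξ ^ 2) = b y * pd f a ξ ^ 2 := by
      field_simp
    rw [h4]
    have h7 := hb0 y hy
    have h8 := hA' y hy
    have h9 := hB' (lp N g) hx a
    have h10 : 0 ≤ pd f a (lp N g) ^ 2 := sq_nonneg _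
    calc b y * pd f a ξ ^ 2 ≤ b y * (pd f a (lp N g) ^ 2 + η) :=
          mul_le_mul_of_nonneg_left (by linarith) h7
      _ = b y * pd f a (lp N g) ^ 2 + b y * η := by ring
      _ ≤ (b (lp N g a) + η) * pd f a (lp N g) ^ 2 + |A| * η := by
          apply add_le_add
          · exact mul_le_mul_of_nonneg_right (by linarith) h10
          · exact mul_le_mul_of_nonneg_right h8 hη0.le
      _ = b (lp N g a) * pd f a (lp N g) ^ 2 + η * pd f a (lp N g) ^ 2 + |A| * η := by ring
      _ ≤ b (lp N g a) * pd f a (lp N g) ^ 2 + η * |B| + |A| * η := by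
          have := mul_le_mul_of_nonneg_left h9 hη0.le
          linarith
      _ ≤ _ := by nlinarith
  have hnn : ∀ a : Fin n, 0 ≤ b (lp N g a) * pd f a (lp N g) ^ 2 + (|A| + |B| + 1) * η := fun a => by
    have h1 := hb0 _ (hxa a)
    positivity
  have hS : lhs b f N g ≤
      ∑ a : Fin n, (b (lp N g a) * pd f a (lp N g) ^ 2 + (|A| + |B| + 1) * η) +
      ∑ a : Fin n, (b (lp N g a) * pd f a (lp N g) ^ 2 + (|A| + |B| + 1) * η) := by
    unfold lhs
    apply add_le_add
    · apply Finset.sum_le_sum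
      intro a _
      split_ifs with h
      · rw [lp_up]
        unfold rt
        have hga : ((g a : ℝ) + 1) ≤ N := by exact_mod_cast h.le
        apply hterm a
        · rw [abs_of_pos (by positivity)]
        · constructor
          · positivity
          · rw [div_le_one hN']
            exact hga
        · have e : ((g a : ℝ) + 1) / N - lp N g a = 1 / (N : ℝ) := by
            show ((g a : ℝ) + 1) / N - (g a : ℝ) / N = 1 / (N : ℝ)
            ring
          rw [e, abs_of_pos (by positivity)]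
        · rw [← lp_up]
          apply lp_mem hNp
          intro c
          by_cases hc : c = a
          · subst hc
            rw [Function.update_self]
            exact h.le
          · rw [Function.update_of_ne hc]
            exact (hg c).le
      · exact hnn a
    · apply Finset.sum_le_sum
      intro a _
      split_ifs with h
      · rw [lp_down g a h]
        unfold rt
        have hcast : ((g a - 1 : ℕ) : ℝ) + 1 = (g a : ℝ) := by
          rw [Nat.cast_sub h]
          simp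
        rw [hcast]
        apply hterm a
        · rw [abs_neg, abs_of_pos (by positivity)]
        · exact hxa a
        · have e : (g a : ℝ) / N - lp N g a = 0 := by
            show (g a : ℝ) / N - (g a : ℝ) / N = 0
            ring
          rw [e, abs_zero]
          positivity
        · rw [← lp_down g a h]
          apply lp_mem hNp
          intro c
          by_cases hc : c = a
          · subst hc
            rw [Function.update_self]
            have := hg c
            omega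
          · rw [Function.update_of_ne hc]
            exact (hg c).le
      · exact hnn a
  refine hS.trans ?_
  rw [Finset.sum_add_distrib, Finset.sum_const, Finset.card_univ, Fintype.card_fin, nsmul_eq_mul]
  set P := ∑ a : Fin n, b (lp N g a) * pd f a (lp N g) ^ 2 with hP
  have h1 : 2 * ((n : ℝ) * ((|A| + |B| + 1) * η)) ≤ ε := by
    refine le_trans ?_ hηD
    rw [hD]
    nlinarith
  linarith

open Classical in
/-- asymptotics of the energy of a placement -/
theorem up (hb : ContinuousOn b (Icc 0 1)) (hb0 : ∀ x ∈ Icc (0 : ℝ) 1, 0 ≤ b x)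
    (hf : ContDiff ℝ 1 f) :
    ∃ (err : ℕ → ℝ) (C : ℝ), Tendsto err atTop (𝓝 0) ∧ 0 ≤ C ∧
      ∀ (N : ℕ) (g : Fin n → ℕ), 0 < N → (∀ a, g a < N) →
      lhs b f N g ≤ 2 * ∑ a, b (lp N g a) * pd f a (lp N g) ^ 2 + err N ∧
      ∀ a c, g c = g a + 1 →
        rt b N (g a) * (f (lp N (mv (g a) (g a + 1) g)) - f (lp N g)) ^ 2 ≤ C := by
  -- Lipschitz bound
  have hK : IsCompact (Icc (0 : Fin n → ℝ) 1) := isCompact_Icc
  have hK1 : IsCompact (Icc (0 : ℝ) 1) := isCompact_Icc
  obtain ⟨L, hL⟩ := hK.exists_bound_of_continuousOn (hf.continuous_fderiv one_ne_zero).continuousOn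
  obtain ⟨A, hA⟩ := hK1.exists_bound_of_continuousOn hb
  have hA' : ∀ x ∈ Icc (0 : ℝ) 1, b x ≤ |A| := by
    intro x hx
    have h1 := hA x hx
    rw [Real.norm_eq_abs] at h1
    exact (le_abs_self _).trans (h1.trans (le_abs_self _))
  let S : ℕ → Finset (Fin n → ℕ) := fun N => Fintype.piFinset fun _ => Finset.range N
  let D : ℕ → (Fin n → ℕ) → ℝ := fun N g =>
    max 0 (lhs b f N g - 2 * ∑ a, b (lp N g a) * pd f a (lp N g) ^ 2)
  let err : ℕ → ℝ := fun N => if h : (S N).Nonempty ∧ 0 < N then (S N).sup' h.1 (D N) else 0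
  have hmem : ∀ (N : ℕ) (g : Fin n → ℕ), (∀ a, g a < N) → g ∈ S N := by
    intro N g hg
    simp only [S, Fintype.mem_piFinset, Finset.mem_range]
    exact hg
  refine ⟨err, |A| * L ^ 2, ?_, by positivity, fun N g hN hg => ⟨?_, ?_⟩⟩
  · rw [Metric.tendsto_atTop]
    intro ε hε
    obtain ⟨N0, hN0⟩ := ev hb hb0 hf (ε / 2) (by positivity)
    refine ⟨N0, fun N hN => ?_⟩
    rw [Real.dist_eq, sub_zero]
    by_cases h : (S N).Nonempty ∧ 0 < N
    · simp only [err, dif_pos h]
      have h1 : (S N).sup' h.1 (D N) ≤ ε / 2 := by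
        apply Finset.sup'_le
        intro g hg
        simp only [S, Fintype.mem_piFinset, Finset.mem_range] at hg
        have := hN0 N hN h.2 g hg
        exact max_le (by positivity) (by linarith)
      have h2 : 0 ≤ (S N).sup' h.1 (D N) := by
        obtain ⟨g, hg⟩ := h.1
        exact (le_max_left _ _).trans (Finset.le_sup' (D N) hg)
      rw [abs_of_nonneg h2]
      linarith
    · simp only [err, dif_neg h, abs_zero]
      exact hε
  · have h1 : (S N).Nonempty ∧ 0 < N := ⟨⟨g, hmem N g hg⟩, hN⟩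
    have h2 : D N g ≤ err N := by
      simp only [err, dif_pos h1]
      exact Finset.le_sup' (D N) (hmem N g hg)
    have h3 : lhs b f N g - 2 * ∑ a, b (lp N g a) * pd f a (lp N g) ^ 2 ≤ D N g := le_max_right _ _
    linarith
  · intro a c hab
    have hN' : (0 : ℝ) < N := by exact_mod_cast hN
    have hmv : ∀ e, mv (g a) (g a + 1) g e < N := by
      intro e
      have h1 := hg a
      have h2 := hg c
      have h3 := hg e
      unfold mv
      rw [Equiv.swap_apply_def]
      split_ifs <;> omega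
    have hx := lp_mem hN fun a => (hg a).le
    have hx' := lp_mem hN fun e => (hmv e).le
    have h1 := (convex_Icc (0 : Fin n → ℝ) 1).norm_image_sub_le_of_norm_fderiv_le
      (𝕜 := ℝ) (f := f) (C := L) (fun x _ => (hf.differentiable one_ne_zero x))
      (fun x hx => hL x hx) hx hx'
    have hL0 : 0 ≤ L := (norm_nonneg _).trans (hL _ hx)
    have h2 : ‖lp N (mv (g a) (g a + 1) g) - lp N g‖ ≤ 1 / (N : ℝ) := by
      rw [pi_norm_le_iff_of_nonneg (by positivity)]
      intro e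
      rw [Pi.sub_apply, Real.norm_eq_abs]
      unfold Pool.Agent.R972.OP.lp mv
      rw [Equiv.swap_apply_def, ← sub_div, abs_div, abs_of_pos hN']
      apply div_le_div_of_nonneg_right _ hN'.le
      split_ifs with h3 h4
      · rw [h3]
        push_cast
        simp
      · rw [h4]
        push_cast
        simp
      · simp
    have h3 : ‖f (lp N (mv (g a) (g a + 1) g)) - f (lp N g)‖ ≤ L * (1 / (N : ℝ)) :=
      h1.trans (mul_le_mul_of_nonneg_left h2 hL0)
    rw [Real.norm_eq_abs] at h3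
    have h4 : (f (lp N (mv (g a) (g a + 1) g)) - f (lp N g)) ^ 2 ≤ (L * (1 / (N : ℝ))) ^ 2 := by
      rw [← sq_abs]
      exact pow_le_pow_left₀ (abs_nonneg _) h3 2
    have hy : ((g a : ℝ) + 1) / N ∈ Icc (0 : ℝ) 1 := by
      have h5 := hg c
      rw [hab] at h5
      have h6 : ((g a : ℝ) + 1) ≤ N := by exact_mod_cast h5.le
      constructor
      · positivity
      · rw [div_le_one hN']
        exact h6
    have h7 := hb0 _ hy
    have h8 := hA' _ hy
    unfold rt
    calc (N : ℝ) ^ 2 * b (((g a : ℝ) + 1) / N) * (f (lp N (mv (g a) (g a + 1) g)) - f (lp N g)) ^ 2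
        ≤ (N : ℝ) ^ 2 * b (((g a : ℝ) + 1) / N) * (L * (1 / (N : ℝ))) ^ 2 :=
          mul_le_mul_of_nonneg_left h4 (by positivity)
      _ = b (((g a : ℝ) + 1) / N) * L ^ 2 := by field_simp
      _ ≤ |A| * L ^ 2 := mul_le_mul_of_nonneg_right h8 (sq_nonneg _)

lemma mem_cfg {N : ℕ} {R : Fin n → Fin n → Prop} {g : Fin n → ℕ} (h : g ∈ cfg N R) :
    (∀ a, g a < N) ∧ Function.Injective g := by
  classical
  unfold cfg at h
  rw [Finset.mem_filter, Fintype.mem_piFinset] at h
  exact ⟨fun a => Finset.mem_range.mp (h.1 a), h.2.1⟩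

theorem lim : S_LIM := by
  classical
  intro b hb hb0 hW n R hR f hf
  have h1 : S_LAT := lat_all
  have h2 : S_RS := Pool.Agent.R364.OP.rs
  have h3 : S_ADJ := Pool.Agent.R372.OP.ADJ.main
  have h4 : S_UPC := pieceUPC
  obtain ⟨err, C, herr, hC, hbd⟩ := up hb hb0 hf
  have hcf : Continuous f := hf.continuous
  -- a continuous extension of `b`
  set be : ℝ → ℝ := fun x => b (max 0 (min 1 x)) with hbe
  have hbec : Continuous be := by
    have h5 : ∀ x : ℝ, max 0 (min 1 x) ∈ Icc (0 : ℝ) 1 := fun x =>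
      ⟨le_max_left _ _, max_le zero_le_one (min_le_left _ _)⟩
    exact hb.comp_continuous (by fun_prop) h5
  have hbee : ∀ x ∈ Icc (0 : ℝ) 1, be x = b x := by
    intro x hx
    simp only [hbe, min_eq_right hx.2, max_eq_right hx.1]
  have hcG : Continuous (fun x : Fin n → ℝ => ∑ a, be (x a) * pd f a x ^ 2) :=
    continuous_finsetSum _ fun a _ => (hbec.comp (continuous_apply a)).mul ((pd_cont hf a).pow 2)
  have t1 := h2 n R hR (fun _ => (1 : ℝ)) continuous_const
  have tf := h2 n R hR f hcf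
  have tf2 := h2 n R hR (fun x => f x ^ 2) (hcf.pow 2)
  have tG := h2 n R hR (fun x => ∑ a, be (x a) * pd f a x ^ 2) hcG
  have tA := h3 n R
  have hvol : (∫ _x in OPp R, (1 : ℝ)) = (volume (OPp R)).toReal := by
    rw [setIntegral_const]
    simp [Measure.real]
  rw [hvol] at t1
  have hmeas : MeasurableSet (OPp R) := (Pool.Agent.R372.OP.SYM.clK R).measurableSet
  have hGeq : ∫ x in OPp R, ∑ a, b (x a) * pd f a x ^ 2 =
      ∫ x in OPp R, ∑ a, be (x a) * pd f a x ^ 2 := by
    apply setIntegral_congr_fun hmeas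
    intro x hx
    apply Finset.sum_congr rfl
    intro a _
    rw [hbee _ (hx.1 a)]
  rw [hGeq]
  -- the limits of both sides
  have tL := (t1.mul tf2).sub (tf.pow 2)
  have tR := t1.mul ((((tG.const_mul (2 : ℝ)).add (herr.mul t1)).add
    (tA.const_mul C)).const_mul (1 / 2 : ℝ))
  have hlim : (volume (OPp R)).toReal * (1 / 2 * (2 *
      (∫ x in OPp R, ∑ a, be (x a) * pd f a x ^ 2) + 0 * (volume (OPp R)).toReal + C * 0)) =
      (volume (OPp R)).toReal * ∫ x in OPp R, ∑ a, be (x a) * pd f a x ^ 2 := by ring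
  rw [hlim] at tR
  refine le_of_tendsto_of_tendsto tL tR ?_
  filter_upwards [eventually_gt_atTop 0, hW] with N hN hWN
  obtain ⟨W, c, m, wc, hcle⟩ := hWN
  have hN0 : (0 : ℝ) < N := by exact_mod_cast hN
  have hNn : (0 : ℝ) < (N : ℝ) ^ n := by positivity
  have hrt0 : ∀ k, k + 1 < N → 0 ≤ rt b N k := fun k hk => (wc.nonneg k hk).trans (hcle k hk)
  have hlat := h1 n N R W c m wc (fun g => f (lp N g))
  have hQc : ∀ g : Fin n → ℕ, QQ N R c (fun g => f (lp N g)) g ≤
      QQ N R (rt b N) (fun g => f (lp N g)) g := by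
    intro g
    unfold QQ
    apply Finset.sum_le_sum
    intro k hk
    have hk' : k + 1 < N := by
      have := Finset.mem_range.1 hk
      omega
    split_ifs
    · exact mul_le_mul_of_nonneg_right (hcle k hk') (sq_nonneg _)
    · exact le_rfl
  have hQ : ∀ g ∈ cfg N R, QQ N R c (fun g => f (lp N g)) g ≤
      2 * (∑ a, be (lp N g a) * pd f a (lp N g) ^ 2) + err N + C * (adj g : ℝ) := by
    intro g hg
    obtain ⟨hlt, hinj⟩ := mem_cfg hg
    obtain ⟨hb1, hb2⟩ := hbd N g hN hlt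
    refine (hQc g).trans ((h4 n N R (rt b N) (fun g => f (lp N g)) hrt0 g hg).trans ?_)
    have hx := lp_mem hN fun a => (hlt a).le
    have e1 : ∑ a, be (lp N g a) * pd f a (lp N g) ^ 2 = ∑ a, b (lp N g a) * pd f a (lp N g) ^ 2 := by
      apply Finset.sum_congr rfl
      intro a _
      rw [hbee _ ⟨hx.1 a, hx.2 a⟩]
    rw [e1]
    apply add_le_add hb1
    calc _ ≤ (Finset.univ.filter (fun p : Fin n × Fin n => g p.2 = g p.1 + 1)).card • C := by
          apply Finset.sum_le_card_nsmul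
          intro p hp
          rw [Finset.mem_filter] at hp
          exact hb2 p.1 p.2 hp.2
      _ = C * (adj g : ℝ) := by
          rw [nsmul_eq_mul, mul_comm]
          rfl
  have hsum : ∑ g ∈ cfg N R, QQ N R c (fun g => f (lp N g)) g ≤
      2 * (∑ g ∈ cfg N R, ∑ a, be (lp N g a) * pd f a (lp N g) ^ 2) + (cfg N R).card * err N +
        C * ∑ g ∈ cfg N R, (adj g : ℝ) := by
    refine (Finset.sum_le_sum hQ).trans (le_of_eq ?_)
    rw [Finset.sum_add_distrib, Finset.sum_add_distrib, Finset.sum_const, nsmul_eq_mul,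
      Finset.mul_sum, Finset.mul_sum]
  have hfin : ((cfg N R).card : ℝ) * ∑ g ∈ cfg N R, f (lp N g) ^ 2 -
      (∑ g ∈ cfg N R, f (lp N g)) ^ 2 ≤ (cfg N R).card * (1 / 2 * (2 *
        (∑ g ∈ cfg N R, ∑ a, be (lp N g a) * pd f a (lp N g) ^ 2) +
        (cfg N R).card * err N + C * ∑ g ∈ cfg N R, (adj g : ℝ))) := by
    refine hlat.trans ?_
    apply mul_le_mul_of_nonneg_left _ (Nat.cast_nonneg _)
    exact mul_le_mul_of_nonneg_left hsum (by norm_num)
  have hcard1 : (∑ _g ∈ cfg N R, (1 : ℝ)) = (cfg N R).card := by simp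
  show (∑ _g ∈ cfg N R, (1 : ℝ)) / (N : ℝ) ^ n * ((∑ g ∈ cfg N R, f (lp N g) ^ 2) / (N : ℝ) ^ n) -
      ((∑ g ∈ cfg N R, f (lp N g)) / (N : ℝ) ^ n) ^ 2 ≤
    (∑ _g ∈ cfg N R, (1 : ℝ)) / (N : ℝ) ^ n * (1 / 2 * (2 *
      ((∑ g ∈ cfg N R, ∑ a, be (lp N g a) * pd f a (lp N g) ^ 2) / (N : ℝ) ^ n) +
      err N * ((∑ _g ∈ cfg N R, (1 : ℝ)) / (N : ℝ) ^ n) +
        C * ((∑ g ∈ cfg N R, (adj g : ℝ)) / (N : ℝ) ^ n)))
  rw [hcard1]
  have hl : ((cfg N R).card : ℝ) / (N : ℝ) ^ n * ((∑ g ∈ cfg N R, f (lp N g) ^ 2) / (N : ℝ) ^ n) -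
      ((∑ g ∈ cfg N R, f (lp N g)) / (N : ℝ) ^ n) ^ 2 =
      (((cfg N R).card : ℝ) * ∑ g ∈ cfg N R, f (lp N g) ^ 2 -
      (∑ g ∈ cfg N R, f (lp N g)) ^ 2) / ((N : ℝ) ^ n) ^ 2 := by
    field_simp
  have hr : ((cfg N R).card : ℝ) / (N : ℝ) ^ n * (1 / 2 * (2 *
      ((∑ g ∈ cfg N R, ∑ a, be (lp N g a) * pd f a (lp N g) ^ 2) / (N : ℝ) ^ n) +
      err N * (((cfg N R).card : ℝ) / (N : ℝ) ^ n) +
        C * ((∑ g ∈ cfg N R, (adj g : ℝ)) / (N : ℝ) ^ n))) =
      ((cfg N R).card * (1 / 2 * (2 * (∑ g ∈ cfg N R, ∑ a, be (lp N g a) * pd f a (lp N g) ^ 2) +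
        (cfg N R).card * err N + C * ∑ g ∈ cfg N R, (adj g : ℝ)))) / ((N : ℝ) ^ n) ^ 2 := by
    field_simp
  rw [hl, hr]
  exact div_le_div_of_nonneg_right hfin (by positivity)

end Pool.Agent.J4H58.OC.Lim
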