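import Pool.Agent.J4H58.OC.Tr
import Pool.Agent.J4H58.OC.Lim
import Pool.Agent.J4H58.OC.Gl
import Pool.Agent.J4H21.OC.Ext
import Pool.Agent.J4H21.OC.Sym
import Pool.Agent.J4H47.OC.Q
import Pool.Agent.J4H47.OC.V12
import Pool.Agent.R711.POBE

/-! Assembly: the Poincaré inequality for the law of the conditioned points. -/

set_option autoImplicit false

namespace Pool.Agent.J4H58.OC

open MeasureTheory Set Filter Topology ProbabilityTheory
open scoped ENNReal
open Pool.Agent.R972.OP (WC OPp pd)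

variable {w : ℝ → ℝ} {n : ℕ}

theorem t_TR : S_TR := Tr.tr Pool.Agent.J4H47.OC.t_Q Lim.lim

/-- the relation without its loops -/
def irr (R : Fin n → Fin n → Prop) : Fin n → Fin n → Prop := fun a b => R a b ∧ a ≠ b

theorem ord_irr (R : Fin n → Fin n → Prop) : ord (irr R) = ord R := by
  ext x
  constructor
  · intro h i j hij
    by_cases he : i = j
    · rw [he]
    · exact h i j ⟨hij, he⟩
  · intro h i j hij
    exact h i j hij.1

theorem nu_prob (hw : LD w) : IsProbabilityMeasure (nu w) := by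
  refine ⟨?_⟩
  unfold nu
  rw [withDensity_apply _ MeasurableSet.univ, setLIntegral_univ,
    ← ofReal_integral_eq_lintegral_ofReal hw.int (Eventually.of_forall hw.nonneg), hw.one]
  simp

theorem nu_sing (w : ℝ → ℝ) (x : ℝ) : nu w {x} = 0 := by
  unfold nu
  rw [withDensity_apply _ (measurableSet_singleton x)]
  simp

theorem pn_prob (hw : LD w) : IsProbabilityMeasure (pn w n) := by
  have := nu_prob hw
  unfold pn
  infer_instance

theorem toLp_meas : Measurable (WithLp.toLp 2 : (Fin n → ℝ) → EuclideanSpace ℝ (Fin n)) :=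
  (MeasurableEquiv.toLp 2 (Fin n → ℝ)).measurable

theorem law_prob (hw : LD w) {R : Fin n → Fin n → Prop} (hR : pn w n (ord R) ≠ 0) :
    IsProbabilityMeasure (law w R) := by
  have := pn_prob (n := n) hw
  have h1 : IsProbabilityMeasure ((pn w n (ord R))⁻¹ • (pn w n).restrict (ord R)) := by
    refine ⟨?_⟩
    rw [Measure.smul_apply, Measure.restrict_apply_univ, smul_eq_mul]
    exact ENNReal.inv_mul_cancel hR (measure_ne_top _ _)
  exact Measure.isProbabilityMeasure_map toLp_meas.aemeasurable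

/-- integrals -/
theorem law_int (w : ℝ → ℝ) (R : Fin n → Fin n → Prop) (G : EuclideanSpace ℝ (Fin n) → ℝ) :
    ∫ x, G x ∂(law w R) =
      (pn w n (ord R)).toReal⁻¹ * ∫ x in ord R, G (WithLp.toLp 2 x) ∂(pn w n) := by
  unfold law
  have hme : MeasurableEmbedding (fun x : Fin n → ℝ => (WithLp.toLp 2 x : EuclideanSpace ℝ (Fin n))) :=
    (MeasurableEquiv.toLp 2 (Fin n → ℝ)).measurableEmbedding
  have h1 := hme.integral_map (μ := (pn w n (ord R))⁻¹ • (pn w n).restrict (ord R)) G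
  refine Eq.trans h1 ?_
  rw [integral_smul_measure, ENNReal.toReal_inv, smul_eq_mul]

/-- **the Poincaré inequality from lattice approximations** -/
theorem pi_of {K : ℝ} (hw : LD w) (hK : 0 < K) (hg : ∀ᶠ δ : ℝ in 𝓝[>] 0, Good w K δ)
    (R : Fin n → Fin n → Prop) (hR : pn w n (ord R) ≠ 0) : PI (law w R) K := by
  have := law_prob hw hR
  have := pn_prob (n := n) hw
  refine Pool.Agent.J4H21.OC.Ext.t_EXT n (law w R) inferInstance K hK ?_
  intro f hf hcs
  have h1 := t_TR w K hw hK hg n (irr R) (fun a h => h.2 rfl) (f ∘ Pool.Agent.R711.POBE.L n)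
    (hf.comp (Pool.Agent.R711.POBE.L n).contDiff)
    (hcs.comp_homeomorph (Pool.Agent.R711.POBE.L n).toHomeomorph)
  rw [ord_irr] at h1
  simp only [Pool.Agent.R711.POBE.sum_pd] at h1
  have hV : 0 < (pn w n (ord R)).toReal := ENNReal.toReal_pos hR (measure_ne_top _ _)
  set V := (pn w n (ord R)).toReal with hVdef
  rw [law_int, law_int, law_int, ← hVdef]
  have e1 : ∀ x : Fin n → ℝ, (f ∘ Pool.Agent.R711.POBE.L n) x = f (WithLp.toLp 2 x) := fun x => rfl
  simp only [e1] at h1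
  generalize (∫ x in ord R, f (WithLp.toLp 2 x) ^ 2 ∂(pn w n)) = A at *
  generalize (∫ x in ord R, f (WithLp.toLp 2 x) ∂(pn w n)) = B at *
  generalize (∫ x in ord R, ‖fderiv ℝ f (WithLp.toLp 2 x)‖ ^ 2 ∂(pn w n)) = D at *
  have e2 : V⁻¹ * A - (V⁻¹ * B) ^ 2 = (V * A - B ^ 2) / V ^ 2 := by
    field_simp
  have e3 : K * (V⁻¹ * D) = (V * (K * D)) / V ^ 2 := by
    field_simp
  rw [e2, e3]
  exact div_le_div_of_nonneg_right h1 (by positivity)

/-- the constant is closed from above -/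
theorem pi_closed {μ : Measure (EuclideanSpace ℝ (Fin n))} {K : ℝ} (hK : 0 < K)
    (h : ∀ K' : ℝ, K < K' → PI μ K') : PI μ K := by
  intro f hf
  by_cases hfin : ∫⁻ x, ENNReal.ofReal (‖fderiv ℝ f x‖ ^ 2) ∂μ = ∞
  · rw [hfin, ENNReal.mul_top]
    · exact le_top
    · simpa using hK
  · have h1 : Tendsto (fun K' : ℝ => ENNReal.ofReal K' *
        ∫⁻ x, ENNReal.ofReal (‖fderiv ℝ f x‖ ^ 2) ∂μ) (𝓝[>] K)
        (𝓝 (ENNReal.ofReal K * ∫⁻ x, ENNReal.ofReal (‖fderiv ℝ f x‖ ^ 2) ∂μ)) := by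
      apply ENNReal.Tendsto.mul_const _ (Or.inr hfin)
      exact (ENNReal.continuous_ofReal.tendsto K).mono_left nhdsWithin_le_nhds
    refine ge_of_tendsto h1 ?_
    filter_upwards [self_mem_nhdsWithin] with K' hK'
    exact h K' hK' f hf

/-- the explicit constant -/
theorem good_four (hw : LD w) {s : ℝ} (hs : 0 < w s) :
    ∀ᶠ δ : ℝ in 𝓝[>] 0, Good w (4 / w s ^ 2) δ := by
  have h8 : ∀ᶠ δ : ℝ in 𝓝[>] 0, δ < 1 / 2 :=
    nhdsWithin_le_nhds (Iio_mem_nhds (by norm_num))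
  filter_upwards [h8, self_mem_nhdsWithin] with δ h1 h0
  have h0' : 0 < δ := h0
  refine ⟨fun x => 4 * (x * (1 - x)) ^ 2, by fun_prop, fun x _ => by positivity, ?_, ?_⟩
  · filter_upwards [eventually_gt_atTop 0] with N hN
    exact Gl.gl N hN
  · intro x hx
    obtain ⟨-, -, -, -, -, h6⟩ := Pool.Agent.J4H47.OC.t_Q w hw
    obtain ⟨hx0, hx1⟩ := hx
    set y := δ + (1 - 2 * δ) * x with hy
    have hy0 : 0 < y := by
      have : 0 ≤ (1 - 2 * δ) * x := mul_nonneg (by linarith) hx0.le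
      linarith
    have hy1 : y < 1 := by
      have : (1 - 2 * δ) * x < (1 - 2 * δ) * 1 := mul_lt_mul_of_pos_left hx1 (by linarith)
      linarith
    have h7 := h6 s y ⟨hy0, hy1⟩
    have hxy : x * (1 - x) ≤ y * (1 - y) := by
      have e : y * (1 - y) - x * (1 - x) = δ * (1 - 2 * x) ^ 2 * (1 - δ) := by
        rw [hy]
        ring
      have : 0 ≤ δ * (1 - 2 * x) ^ 2 * (1 - δ) :=
        mul_nonneg (by positivity) (by linarith)
      linarith
    have hx2 : 0 < x * (1 - x) := mul_pos hx0 (by linarith)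
    have h9 : w s * (x * (1 - x)) ≤ w (qt w y) :=
      (mul_le_mul_of_nonneg_left hxy hs.le).trans h7
    have h10 : (w s * (x * (1 - x))) ^ 2 ≤ w (qt w y) ^ 2 :=
      pow_le_pow_left₀ (by positivity) h9 2
    have h11 : (1 - 2 * δ) ^ 2 ≤ 1 := by nlinarith
    show 4 * (x * (1 - x)) ^ 2 * (1 - 2 * δ) ^ 2 ≤ 4 / w s ^ 2 * w (qt w y) ^ 2
    calc 4 * (x * (1 - x)) ^ 2 * (1 - 2 * δ) ^ 2 ≤ 4 * (x * (1 - x)) ^ 2 * 1 :=
          mul_le_mul_of_nonneg_left h11 (by positivity)
      _ = 4 / w s ^ 2 * (w s * (x * (1 - x))) ^ 2 := by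
          field_simp
      _ ≤ _ := mul_le_mul_of_nonneg_left h10 (by positivity)

/-- the explicit inequality -/
theorem pi_four (hw : LD w) {s : ℝ} (hs : 0 < w s) (R : Fin n → Fin n → Prop)
    (hR : pn w n (ord R) ≠ 0) : PI (law w R) (4 / w s ^ 2) :=
  pi_of hw (by positivity) (good_four hw hs) R hR

end Pool.Agent.J4H58.OC
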