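import Pool.Agent.J4H58.OC.Asm
import Pool.Agent.J4H52.OC.Good
import Pool.Agent.J4H52.OC.Den
import Pool.Agent.J4H64.OC.One
import Pool.Agent.J4H64.OC.Pos
import Pool.Agent.J4H98.OC.Rev
import Pool.Agent.J4H98.OC.Var

/-! Assembly, part 2: the sharp constant, and the bound by the covariance. -/

set_option autoImplicit false

namespace Pool.Agent.J4H58.OC

open MeasureTheory Set Filter Topology ProbabilityTheory
open scoped ENNReal InnerProductSpace
open Pool.Agent.R972.OP (WC OPp pd)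

variable {w : ℝ → ℝ} {n : ℕ}

/-- **the sharp inequality** -/
theorem pi_sharp {K : ℝ} (hw : LD w) (hK : 0 < K) (h : PI1 (nu w) K)
    (R : Fin n → Fin n → Prop) (hR : pn w n (ord R) ≠ 0) : PI (law w R) K := by
  have h1 := Pool.Agent.J4H64.OC.t_ONE w K hw hK h
  refine pi_closed hK fun K' hK' => ?_
  exact pi_of hw (hK.trans hK') (Pool.Agent.J4H52.OC.t_GOOD w K hw hK h1 K' hK') R hR

theorem pi_iff {K : ℝ} (hw : LD w) (hn : 1 ≤ n) (hK : 0 < K) (R : Fin n → Fin n → Prop)
    (hR : pn w n (ord R) ≠ 0) : PI (law w R) K ↔ PI1 (nu w) K :=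
  ⟨fun h => Pool.Agent.J4H98.OC.t_REV w n R K hw hn hR hK h, fun h => pi_sharp hw hK h R hR⟩

/-- a point of positive density -/
theorem exists_pos (hw : LD w) : ∃ s, 0 < w s := by
  by_contra h
  push Not at h
  have h1 : ∀ x, w x = 0 := fun x => le_antisymm (h x) (hw.nonneg x)
  have h2 := hw.one
  simp only [h1, integral_zero] at h2
  exact zero_ne_one h2

/-- one point -/
theorem pi1_four (hw : LD w) {s : ℝ} (hs : 0 < w s) : PI1 (nu w) (4 / w s ^ 2) := by
  have hR : pn w 1 (ord (fun _ _ : Fin 1 => False)) ≠ 0 := by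
    have h1 : ord (fun _ _ : Fin 1 => False) = univ := by
      ext x
      simp [ord]
    have := pn_prob (n := 1) hw
    rw [h1, measure_univ]
    exact one_ne_zero
  exact Pool.Agent.J4H98.OC.t_REV w 1 _ _ hw le_rfl hR (by positivity) (pi_four hw hs _ hR)

theorem memLp_id (hw : LD w) : MemLp (fun x : ℝ => x) 2 (nu w) := by
  have hprob := nu_prob hw
  obtain ⟨s, hs⟩ := exists_pos hw
  have h1 := pi1_four hw hs (fun x => x) contDiff_id
  have h2 : evariance (fun x : ℝ => x) (nu w) < ∞ := by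
    refine lt_of_le_of_lt h1 ?_
    apply ENNReal.mul_lt_top ENNReal.ofReal_lt_top
    have h3 : ∀ x : ℝ, ENNReal.ofReal (deriv (fun x : ℝ => x) x ^ 2) = 1 := by
      intro x
      simp
    simp only [h3, lintegral_one, measure_univ]
    exact ENNReal.one_lt_top
  exact (evariance_lt_top_iff_memLp (by fun_prop)).1 h2

/-- variance of one point as an integral -/
theorem var_eq (hw : LD w) : ∃ m : ℝ, Integrable (fun x => (x - m) ^ 2 * w x) ∧
    ∫ x, (x - m) ^ 2 * w x = variance (fun x => x) (nu w) := by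
  have hprob := nu_prob hw
  have h1 := memLp_id hw
  set m := ∫ x, x ∂(nu w) with hm
  have h2 : MemLp (fun x : ℝ => x - m) 2 (nu w) := h1.sub (memLp_const m)
  have h3 : Integrable (fun x : ℝ => (x - m) ^ 2) (nu w) := h2.integrable_sq
  have hmeas : Measurable fun x => ENNReal.ofReal (w x) :=
    (Pool.Agent.J4H52.OC.w_meas hw).ennreal_ofReal
  have hlt : ∀ᵐ x, ENNReal.ofReal (w x) < ∞ := Eventually.of_forall fun x => ENNReal.ofReal_lt_top
  refine ⟨m, ?_, ?_⟩
  · unfold nu at h3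
    rw [integrable_withDensity_iff hmeas hlt] at h3
    refine h3.congr (Eventually.of_forall fun x => ?_)
    show (x - m) ^ 2 * (ENNReal.ofReal (w x)).toReal = _
    rw [ENNReal.toReal_ofReal (hw.nonneg x)]
  · rw [variance_eq_integral h1.1.aemeasurable]
    rw [← hm]
    unfold nu
    rw [integral_withDensity_eq_integral_toReal_smul hmeas hlt]
    apply integral_congr_ae
    refine Eventually.of_forall fun x => ?_
    show (x - m) ^ 2 * w x = (ENNReal.ofReal (w x)).toReal • (x - m) ^ 2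
    rw [ENNReal.toReal_ofReal (hw.nonneg x), smul_eq_mul]
    ring

/-- `Var ν ≥ 1 / (12 sup w²)`: constants beyond `48 Var ν` are admissible -/
theorem exists_s (hw : LD w) {K : ℝ} (hK : 48 * variance (fun x => x) (nu w) < K) :
    ∃ s, 0 < w s ∧ 4 / w s ^ 2 ≤ K := by
  have hv0 : 0 ≤ variance (fun x => x) (nu w) := variance_nonneg _ _
  have hK0 : 0 < K := by linarith
  by_contra hcon
  push Not at hcon
  have hb : ∀ s, w s ≤ 2 / Real.sqrt K := by
    intro s
    rcases (hw.nonneg s).eq_or_lt with h0 | h0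
    · rw [← h0]
      positivity
    · have h1 := hcon s h0
      rw [lt_div_iff₀ (by positivity)] at h1
      have h2 : (w s * Real.sqrt K) ^ 2 ≤ 2 ^ 2 := by
        rw [mul_pow, Real.sq_sqrt hK0.le]
        linarith
      rw [le_div_iff₀ (Real.sqrt_pos.2 hK0)]
      exact (abs_le_of_sq_le_sq' h2 (by norm_num)).2
  obtain ⟨m, h3, h4⟩ := var_eq hw
  have h5 := Pool.Agent.J4H47.OC.t_V12 w (2 / Real.sqrt K) m hw.nonneg hb hw.int hw.one h3
  rw [h4] at h5
  have h6 : 1 / (12 * (2 / Real.sqrt K) ^ 2) = K / 48 := by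
    rw [div_pow, Real.sq_sqrt hK0.le]
    field_simp
    norm_num
  rw [h6] at h5
  linarith

/-- the Poincaré inequality with the constant `48 Var ν` -/
theorem pi_48 (hw : LD w) (R : Fin n → Fin n → Prop) (hR : pn w n (ord R) ≠ 0) {K : ℝ}
    (hK0 : 0 < K) (hK : 48 * variance (fun x => x) (nu w) ≤ K) : PI (law w R) K := by
  refine pi_closed hK0 fun K' hK' => ?_
  obtain ⟨s, hs, h1⟩ := exists_s hw (lt_of_le_of_lt hK hK')
  have h2 := pi_four hw hs R hR
  intro f hf
  refine (h2 f hf).trans ?_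
  gcongr

/-- the direction `(1, ..., 1)` -/
noncomputable def dg (n : ℕ) : EuclideanSpace ℝ (Fin n) := WithLp.toLp 2 fun _ => 1 / Real.sqrt n

theorem dg_norm (hn : 1 ≤ n) : ‖dg n‖ = 1 := by
  have hn0 : (0 : ℝ) < n := by exact_mod_cast hn
  have h1 : ‖dg n‖ ^ 2 = 1 := by
    rw [EuclideanSpace.norm_sq_eq]
    unfold dg
    simp only [one_div, norm_inv, Real.norm_eq_abs, abs_of_nonneg (Real.sqrt_nonneg _), inv_pow,
      Real.sq_sqrt hn0.le, Finset.sum_const, Finset.card_univ, Fintype.card_fin, nsmul_eq_mul]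
    field_simp
  nlinarith [norm_nonneg (dg n)]

theorem dg_var (hw : LD w) (hn : 1 ≤ n) (R : Fin n → Fin n → Prop) (hR : pn w n (ord R) ≠ 0) :
    variance (fun x => ⟪x, dg n⟫_ℝ) (law w R) = variance (fun x => x) (nu w) := by
  have hn0 : (0 : ℝ) < n := by exact_mod_cast hn
  have h1 := (Pool.Agent.J4H98.OC.t_VAR w n R hw hR (memLp_id hw)).2
  have h2 : (fun x : EuclideanSpace ℝ (Fin n) => ⟪x, dg n⟫_ℝ) =
      fun x => 1 / Real.sqrt n * ∑ i, x i := by
    funext x
    unfold dg
    rw [PiLp.inner_apply, Finset.mul_sum]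
    apply Finset.sum_congr rfl
    intro i _
    simp
  rw [h2, variance_const_mul, h1]
  have h3 : (1 / Real.sqrt n) ^ 2 = 1 / (n : ℝ) := by
    rw [div_pow, Real.sq_sqrt hn0.le, one_pow]
  rw [h3]
  field_simp

/-- **KLS, in the form of a Poincaré inequality** -/
theorem pi_kls (hw : LD w) (hn : 1 ≤ n) (R : Fin n → Fin n → Prop) (hR : pn w n (ord R) ≠ 0)
    {σ : ℝ} (hσ : 0 < σ) (h : ∀ θ : EuclideanSpace ℝ (Fin n), ‖θ‖ = 1 →
      variance (fun x => ⟪x, θ⟫_ℝ) (law w R) ≤ σ) : PI (law w R) (48 * σ) := by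
  have h1 := h (dg n) (dg_norm hn)
  rw [dg_var hw hn R hR] at h1
  exact pi_48 hw R hR (by positivity) (by linarith)

end Pool.Agent.J4H58.OC
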