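import Pool.Agent.J4H58.OC.Ocn
import Pool.Agent.J4H48.OC.Srt
import Pool.Agent.J4H48.OC.Ovr
import Pool.Agent.J4H71.OC.Stl
import Pool.Agent.J4H71.OC.Nri
import Pool.Agent.J4H42.OC.Geb
import Pool.Agent.J4H42.OC.Lmb
import Pool.Agent.J4H42.OC.Smv
import Pool.Agent.Y665.FF.Milb
import Pool.Agent.Y445.FF.Mila
import Pool.Agent.Y429.RG.MINKM

/-! Assembly, part 4: order-constrained Orlicz balls. -/

set_option autoImplicit false

namespace Pool.Agent.J4H58.OC.Asm4

open MeasureTheory Set Filter Topology ProbabilityTheory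
open scoped ENNReal InnerProductSpace Pointwise
open Pool.Agent.W695.KH (Eu EU EV VV Sm)
open Pool.Agent.R476.OR (CV NV SV KV LVL)
open Pool.Agent.J4H58.OC

theorem milb : Pool.Agent.Y506.FF.S_MILB := Pool.Agent.Y665.FF.milb Pool.Agent.Y445.FF.mila'

theorem ocn : S_OCN := Ocn.ocn Pool.Agent.J4H48.OC.t_SRT Pool.Agent.J4H71.OC.t_STL

variable {n : ℕ}

/-- means over homothetic bodies -/
theorem EV_scale {D DW : Set (Eu (Fin n))} {d : ℝ} (hd : 0 < d) (h : ∀ x, x ∈ DW ↔ d • x ∈ D)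
    (G : Eu (Fin n) → ℝ) : EV D G = EV DW fun x => G (d • x) := by
  have hD : d • DW = D := by
    ext x
    rw [mem_smul_set_iff_inv_smul_mem₀ hd.ne', h, smul_inv_smul₀ hd.ne']
  have h1 := Measure.setIntegral_comp_smul_of_pos (volume : Measure (Eu (Fin n))) G DW hd
  have h2 := Measure.setIntegral_comp_smul_of_pos (volume : Measure (Eu (Fin n)))
    (fun _ => (1 : ℝ)) DW hd
  rw [hD] at h1 h2
  have h3 : ∀ A : Set (Eu (Fin n)), ∫ _x in A, (1 : ℝ) = (volume A).toReal := fun A => by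
    simp [Measure.real]
  rw [h3, h3, smul_eq_mul] at h2
  rw [smul_eq_mul] at h1
  unfold EV
  rw [h1, h2]
  have hr : (d ^ Module.finrank ℝ (Eu (Fin n)))⁻¹ ≠ 0 := by positivity
  rw [mul_div_mul_left _ _ hr]

theorem VV_scale {D DW : Set (Eu (Fin n))} {d : ℝ} (hd : 0 < d) (h : ∀ x, x ∈ DW ↔ d • x ∈ D)
    (G : Eu (Fin n) → ℝ) : VV D G = VV DW fun x => G (d • x) := by
  unfold VV
  rw [EV_scale hd h, EV_scale hd h]

theorem EV_mul (D : Set (Eu (Fin n))) (c : ℝ) (w : Eu (Fin n) → ℝ) :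
    EV D (fun x => c * w x) = c * EV D w := by
  unfold EV
  rw [integral_const_mul, mul_div_assoc]

theorem VV_mul (D : Set (Eu (Fin n))) (c : ℝ) (w : Eu (Fin n) → ℝ) :
    VV D (fun x => c * w x) = c ^ 2 * VV D w := by
  unfold VV
  rw [EV_mul]
  have e : (fun x => (c * w x) ^ 2) = fun x => c ^ 2 * w x ^ 2 := by
    funext x
    ring
  rw [e, EV_mul]
  ring

/-- the `C¹` case -/
theorem c1 : ∃ c : ℝ, 0 < c ∧ ∀ (n : ℕ) (V V' : ℝ → ℝ) (E : ℝ) (R : Fin n → Fin n → Prop),
    1 ≤ n → CV V V' → (∀ t, V (-t) = V t) → Bornology.IsBounded (KV (fun _ : Fin n => V) E) →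
    (∃ x, SV (fun _ : Fin n => V) x < E) →
    IsCompact (KV (fun _ : Fin n => V) E ∩ ordE R) → Convex ℝ (KV (fun _ : Fin n => V) E ∩ ordE R) →
    0 < volume (KV (fun _ : Fin n => V) E ∩ ordE R) →
    (∀ a b, R a b → R b a → a = b) → (∀ a b c, R a b → R b c → R a c) →
    StB c (KV (fun _ : Fin n => V) E ∩ ordE R) := by
  obtain ⟨c0, hc0, hovr⟩ := Pool.Agent.J4H48.OC.t_OVR
  obtain ⟨κ, hκ, hocn⟩ := ocn (1 / 20) (by norm_num)
  have hs0 : 0 < Real.sqrt c0 := Real.sqrt_pos.2 hc0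
  refine ⟨2 / (κ * Real.sqrt c0), by positivity, ?_⟩
  intro n V V' E R hn hV hev hbd hex hcomp hconv hvol hanti htr
  obtain ⟨W, W', E', d, hW, hWe, hL, hd, hK⟩ :=
    Pool.Agent.J4H71.OC.t_NRI n V V' hn hV hev E hbd hex
  set D := KV (fun _ : Fin n => V) E ∩ ordE R with hD
  set DW := KV (fun _ : Fin n => W) E' ∩ ordE R with hDW
  have hmem : ∀ x, x ∈ DW ↔ d • x ∈ D := by
    intro x
    have h1 : x ∈ ordE R ↔ d • x ∈ ordE R := by
      constructor
      · intro h i j hij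
        exact mul_le_mul_of_nonneg_left (h i j hij) hd.le
      · intro h i j hij
        exact le_of_mul_le_mul_left (h i j hij) hd
    rw [hDW, hD, mem_inter_iff, mem_inter_iff, hK x, h1]
  obtain ⟨hdg, hvar⟩ := hovr n W W' hn hW hWe E' hL R hanti htr
  intro s hs hθ f L M hf hfb hf5
  -- the scale
  have h1 := hθ (dgn n) hdg
  have h2 : VV D (fun x => ⟪x, dgn n⟫_ℝ) = d ^ 2 * VV DW fun x => ⟪x, dgn n⟫_ℝ := by
    rw [VV_scale hd hmem, ← VV_mul]
    congr 1
    funext x
    rw [real_inner_smul_left]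
  rw [h2] at h1
  have hds : d * Real.sqrt c0 ≤ Real.sqrt s := by
    apply Real.le_sqrt_of_sq_le
    rw [mul_pow, Real.sq_sqrt hc0.le]
    have h3 : d ^ 2 * c0 ≤ d ^ 2 * VV DW fun x => ⟪x, dgn n⟫_ℝ :=
      mul_le_mul_of_nonneg_left hvar (by positivity)
    linarith
  -- concentration
  have hcon : Pool.Agent.Y506.FF.LCon D (κ / d) (1 / 20) := by
    intro v hv hv1 hvl
    rw [VV_scale hd hmem]
    refine hocn n W W' hn hW E' hL R hanti htr (fun x => v (d • x)) ?_ (fun x => hv1 _) ?_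
    · exact hv.comp (contDiff_const_smul d)
    · intro x
      have h3 : HasFDerivAt (fun x : Eu (Fin n) => v (d • x))
          ((fderiv ℝ v (d • x)).comp (d • ContinuousLinearMap.id ℝ (Eu (Fin n)))) x := by
        have h4 : HasFDerivAt (fun x : Eu (Fin n) => d • x)
            (d • ContinuousLinearMap.id ℝ (Eu (Fin n))) x :=
          (hasFDerivAt_id x).const_smul d
        exact ((hv.differentiable one_ne_zero (d • x)).hasFDerivAt).comp x h4
      rw [h3.fderiv, ContinuousLinearMap.comp_smul, ContinuousLinearMap.comp_id, norm_smul,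
        Real.norm_eq_abs, abs_of_pos hd]
      have h5 := hvl (d • x)
      rw [le_div_iff₀ hd] at h5
      linarith
  have h6 := milb (Fin n) D hcomp hconv hvol (1 / 20) (κ / d) (by norm_num) (by positivity) hcon f
    L M hf hfb (by linarith)
  refine h6.trans ?_
  have hE0 : 0 ≤ EV D fun x => ‖fderiv ℝ f x‖ := by
    unfold EV
    exact div_nonneg (integral_nonneg fun x => norm_nonneg _) ENNReal.toReal_nonneg
  apply mul_le_mul_of_nonneg_right _ hE0
  have e1 : 2 / (κ / d) = 2 / (κ * Real.sqrt c0) * (d * Real.sqrt c0) := by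
    field_simp
  rw [e1]
  exact mul_le_mul_of_nonneg_left hds (by positivity)

/-- general even convex functions -/
theorem gen : ∃ c : ℝ, 0 < c ∧ ∀ (n : ℕ) (V : ℝ → ℝ) (E : ℝ) (R : Fin n → Fin n → Prop),
    1 ≤ n → ConvexOn ℝ univ V → (∀ t, V (-t) = V t) → (∃ t, V t ≠ V 0) → n * V 0 < E →
    (∀ a b, R a b → R b a → a = b) → (∀ a b c, R a b → R b c → R a c) →
    (IsCompact (KV (fun _ : Fin n => V) E ∩ ordE R) ∧
      Convex ℝ (KV (fun _ : Fin n => V) E ∩ ordE R) ∧
      (interior (KV (fun _ : Fin n => V) E ∩ ordE R)).Nonempty) ∧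
    StB c (KV (fun _ : Fin n => V) E ∩ ordE R) := by
  obtain ⟨c, hc, H⟩ := c1
  refine ⟨c, hc, ?_⟩
  intro n V E R hn hV hev hne hE hanti htr
  obtain ⟨hbd, Vj, Vj', hj, hjx, hjv⟩ := Pool.Agent.J4H42.OC.t_SMV n V E hn hV hev hne hE
  have hgeo := Pool.Agent.J4H42.OC.t_GEB n V E R hn hV hE hbd hanti htr
  refine ⟨hgeo, ?_⟩
  obtain ⟨hcomp, hconv, hint⟩ := hgeo
  have hpos : ∀ {A : Set (Eu (Fin n))}, (interior A).Nonempty → 0 < volume A := fun h =>
    (isOpen_interior.measure_pos volume h).trans_le (measure_mono interior_subset)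
  have hcv : ∀ j, ConvexOn ℝ univ (Vj j) := by
    intro j
    have hd : Differentiable ℝ (Vj j) := fun t => ((hj j).1.der t).differentiableAt
    apply Monotone.convexOn_univ_of_deriv hd
    have : deriv (Vj j) = Vj' j := by
      ext t
      exact ((hj j).1.der t).deriv
    rw [this]
    exact (hj j).1.mono
  have hcj : ∀ j, Continuous (Vj j) := fun j =>
    (show Differentiable ℝ (Vj j) from fun t => ((hj j).1.der t).differentiableAt).continuous
  have hmj : ∀ j, MeasurableSet (KV (fun _ : Fin n => Vj j) E ∩ ordE R) := by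
    intro j
    have h1 : Continuous (SV (fun _ : Fin n => Vj j)) := by
      unfold SV
      exact continuous_finsetSum _ fun i _ => (hcj j).comp (by fun_prop)
    exact (isClosed_le h1 continuous_const).measurableSet.inter (Ocn.ordE_meas R)
  refine Pool.Agent.J4H42.OC.t_LMB n c (KV (fun _ : Fin n => V) E ∩ ordE R)
    (fun j => KV (fun _ : Fin n => Vj j) E ∩ ordE R) hc.le hcomp.isBounded
    hcomp.isClosed.measurableSet (hpos hint)
    (fun j => ⟨hmj j, inter_subset_inter_left _ (hj j).2.2⟩) ?_ ?_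
  · refine tendsto_of_tendsto_of_tendsto_of_le_of_le tendsto_const_nhds hjv (fun j => zero_le)
      fun j => measure_mono ?_
    rintro x ⟨⟨h1, h2⟩, h3⟩
    exact ⟨h1, fun h4 => h3 ⟨h4, h2⟩⟩
  · filter_upwards [hjx] with j hx
    have hbj : Bornology.IsBounded (KV (fun _ : Fin n => Vj j) E) := hbd.subset (hj j).2.2
    -- the centre is interior
    have h0 : n * Vj j 0 < E := by
      obtain ⟨x, hx⟩ := hx
      have h1 : (n : ℝ) * Vj j 0 ≤ SV (fun _ : Fin n => Vj j) x := by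
        unfold SV
        have h2 : ∀ t, Vj j 0 ≤ Vj j t := by
          intro t
          have h3 := (hcv j).2 (mem_univ t) (mem_univ (-t)) (by norm_num : (0 : ℝ) ≤ 1 / 2)
            (by norm_num : (0 : ℝ) ≤ 1 / 2) (by norm_num)
          simp only [smul_eq_mul, (hj j).2.1 t] at h3
          have e : 1 / 2 * t + 1 / 2 * -t = 0 := by ring
          rw [e] at h3
          linarith
        calc (n : ℝ) * Vj j 0 = ∑ _i : Fin n, Vj j 0 := by simp
          _ ≤ ∑ i, Vj j (x i) := Finset.sum_le_sum fun i _ => h2 _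
      linarith
    obtain ⟨g1, g2, g3⟩ := Pool.Agent.J4H42.OC.t_GEB n (Vj j) E R hn (hcv j) h0 hbj hanti htr
    exact H n (Vj j) (Vj' j) E R hn (hj j).1 (hj j).2.1 hbj hx g1 g2 (hpos g3) hanti htr

/-- the uniform probability measure -/
noncomputable def unif (K : Set (Eu (Fin n))) : Measure (Eu (Fin n)) :=
  (volume K)⁻¹ • volume.restrict K

theorem unif_int {K : Set (Eu (Fin n))} (G : Eu (Fin n) → ℝ) :
    ∫ x, G x ∂(unif K) = EV K G := by
  unfold unif EV
  rw [integral_smul_measure, ENNReal.toReal_inv, smul_eq_mul, inv_mul_eq_div]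

theorem unif_prob {K : Set (Eu (Fin n))} (h0 : 0 < volume K) (h1 : volume K < ∞) :
    IsProbabilityMeasure (unif K) := by
  refine ⟨?_⟩
  unfold unif
  rw [Measure.smul_apply, Measure.restrict_apply_univ, smul_eq_mul]
  exact ENNReal.inv_mul_cancel h0.ne' h1.ne

/-- sets of measure one half -/
theorem half {c : ℝ} (hc : 0 < c) {K : Set (Eu (Fin n))} (hK : IsCompact K)
    (h0 : 0 < volume K) (hst : StB c K) {s : ℝ} (hs : 0 < s)
    (hvar : ∀ θ : Eu (Fin n), ‖θ‖ = 1 → variance (fun x => ⟪x, θ⟫_ℝ) (unif K) ≤ s)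
    (S : Set (Eu (Fin n))) (hS : MeasurableSet S) (hS2 : unif K S = 1 / 2) :
    ENNReal.ofReal (1 / (2 * c) / Real.sqrt s) * min (unif K S) (unif K Sᶜ) ≤
      liminf (fun ε : ℝ => (unif K (Metric.thickening ε S) - unif K S) / ENNReal.ofReal ε)
        (𝓝[>] 0) := by
  have hprob := unif_prob h0 hK.measure_lt_top
  have hss : 0 < Real.sqrt s := Real.sqrt_pos.2 hs
  have hv : ∀ θ : Eu (Fin n), ‖θ‖ = 1 → VV K (fun x => ⟪x, θ⟫_ℝ) ≤ s := by
    intro θ hθ
    have h1 := hvar θ hθ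
    have hmem : MemLp (fun x : Eu (Fin n) => ⟪x, θ⟫_ℝ) 2 (unif K) := by
      obtain ⟨B, hB⟩ := hK.exists_bound_of_continuousOn
        (f := fun x : Eu (Fin n) => ⟪x, θ⟫_ℝ) (by fun_prop)
      refine MemLp.of_bound (Continuous.aestronglyMeasurable (by fun_prop)) B ?_
      have h2 : ∀ᵐ x ∂(volume.restrict K), ‖⟪x, θ⟫_ℝ‖ ≤ B := by
        rw [ae_restrict_iff' hK.isClosed.measurableSet]
        exact Eventually.of_forall hB
      exact Measure.ae_smul_measure h2 _
    rw [variance_eq_sub hmem] at h1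
    unfold VV
    rw [← unif_int, ← unif_int]
    exact h1
  have h1 := Pool.Agent.Y429.RG.minkm (Fin n) (unif K) (c * Real.sqrt s) (by positivity) (by
    intro f L M hf hfb hf5
    rw [unif_int, unif_int] at hf5 ⊢
    rw [unif_int]
    exact hst s hs hv f L M hf hfb hf5) S hS2
  set P := liminf (fun ε : ℝ => (unif K (Metric.thickening ε S) - unif K S) / ENNReal.ofReal ε)
    (𝓝[>] 0) with hP
  rw [prob_compl_eq_one_sub hS]
  rw [hS2] at h1 ⊢
  have e0 : (1 : ℝ≥0∞) - 1 / 2 = 1 / 2 := by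
    rw [one_div, ENNReal.one_sub_inv_two]
  rw [e0] at h1 ⊢
  rw [min_self]
  have e1 : (1 / 2 : ℝ≥0∞) = ENNReal.ofReal (1 / 2) := by
    rw [ENNReal.ofReal_div_of_pos (by norm_num)]
    simp
  rw [e1] at h1 ⊢
  rw [← ENNReal.ofReal_mul (by norm_num)] at h1
  calc ENNReal.ofReal (1 / (2 * c) / Real.sqrt s) * ENNReal.ofReal (1 / 2)
      = ENNReal.ofReal (1 / (c * Real.sqrt s)) * ENNReal.ofReal (1 / 2 * (1 / 2)) := by
        rw [← ENNReal.ofReal_mul (by positivity), ← ENNReal.ofReal_mul (by positivity)]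
        congr 1
        field_simp
    _ ≤ ENNReal.ofReal (1 / (c * Real.sqrt s)) * (ENNReal.ofReal (c * Real.sqrt s) * P) := by
        gcongr
    _ = P := by
        rw [← mul_assoc, ← ENNReal.ofReal_mul (by positivity)]
        have e2 : 1 / (c * Real.sqrt s) * (c * Real.sqrt s) = 1 := by
          field_simp
        rw [e2, ENNReal.ofReal_one, one_mul]

end Pool.Agent.J4H58.OC.Asm4
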