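import Pool.Agent.J4H58.OC.Stm3
import Pool.Agent.R476.OR.Stm
import Pool.Agent.Y506.FF.Stm

/-!
# Orlicz balls with order constraints: statements (project OC, MP_6d896a_gt)

`K = {x ∈ ℝⁿ | ∑ V(x_i) ≤ E, x_i ≤ x_j if R i j}` with an even convex function `V`.
-/

set_option autoImplicit false

namespace Pool.Agent.J4H58.OC

open MeasureTheory Set Filter Topology ProbabilityTheory
open scoped ENNReal InnerProductSpace
open Pool.Agent.W695.KH (Eu EU EV VV Sm)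
open Pool.Agent.R476.OR (CV NV SV KV LVL ind)
open Pool.Agent.Y506.RG (EW VW)

/-- the cone in Euclidean space -/
def ordE {n : ℕ} (R : Fin n → Fin n → Prop) : Set (Eu (Fin n)) := {x | ∀ i j, R i j → x i ≤ x j}

/-- invariance under permutations of the coordinates -/
def SymF {n : ℕ} (g : Eu (Fin n) → ℝ) : Prop := ∀ (p : Equiv.Perm (Fin n)) (x : Eu (Fin n)),
  g (WithLp.toLp 2 fun i => x (p i)) = g x

/-- OC-SRT: symmetrisation by sorting. `c` is the number of linear extensions divided by `n!`,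
`T x` is the mean over the linear extensions `q` of `U (sort x ∘ q)`, and sorting does not expand
distances (rearrangement inequality). -/
def S_SRT : Prop := ∀ (n : ℕ) (R : Fin n → Fin n → Prop),
  (∀ a b, R a b → R b a → a = b) → (∀ a b c, R a b → R b c → R a c) → ∃ c : ℝ, 0 < c ∧
  (∀ g : Eu (Fin n) → ℝ, Integrable g → SymF g → ∫ x in ordE R, g x = c * ∫ x, g x) ∧
  ∀ (U : Eu (Fin n) → ℝ) (l : ℝ), 0 ≤ l → (∀ x, 0 ≤ U x) → (∀ x, U x ≤ 4) →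
  (∀ x y, |U x - U y| ≤ l * ‖x - y‖) → ∃ T : Eu (Fin n) → ℝ, (∀ x, 0 ≤ T x) ∧ (∀ x, T x ≤ 4) ∧
  (∀ x y, |T x - T y| ≤ l * ‖x - y‖) ∧
  ∀ g : Eu (Fin n) → ℝ, Integrable g → SymF g → ∫ x in ordE R, U x * g x = c * ∫ x, T x * g x

/-- OC-STL: `Pool.Agent.R476.OR.S_STI` (known) for Lipschitz functions, by mollification -/
def S_STL : Prop := ∃ C : ℝ, 1 ≤ C ∧ ∀ (n : ℕ) (V V' : Fin n → ℝ → ℝ), (∀ i, NV (V i) (V' i)) →
  ∀ E : ℝ, LVL V E → ∀ (U : Eu (Fin n) → ℝ) (l η : ℝ), (∀ x, 0 ≤ U x) → (∀ x, U x ≤ 4) →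
  0 ≤ l → (∀ x y, |U x - U y| ≤ l * ‖x - y‖) → 0 ≤ η →
  ∫ x, U x * Real.exp (-SV V x) ≤ η ^ 2 →
  ∫ x in KV V E, U x ≤ C * (η + l) * (volume (KV V E)).toReal

/-- OC-NRI: normalisation for equal even functions (adapt `R938.ORF.nrm`: `W t = λ V(d t) + k`) -/
def S_NRI : Prop := ∀ (n : ℕ) (V V' : ℝ → ℝ), 1 ≤ n → CV V V' → (∀ t, V (-t) = V t) → ∀ E : ℝ,
  Bornology.IsBounded (KV (fun _ : Fin n => V) E) → (∃ x, SV (fun _ : Fin n => V) x < E) →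
  ∃ (W W' : ℝ → ℝ) (E' d : ℝ), NV W W' ∧ (∀ t, W (-t) = W t) ∧ LVL (fun _ : Fin n => W) E' ∧
  0 < d ∧ ∀ x : Eu (Fin n), x ∈ KV (fun _ : Fin n => W) E' ↔ d • x ∈ KV (fun _ : Fin n => V) E

/-- the direction `(1, ..., 1)` -/
noncomputable def dgn (n : ℕ) : Eu (Fin n) := WithLp.toLp 2 fun _ => 1 / Real.sqrt n

/-- OC-OVR: variance in the direction `(1, ..., 1)` (from `R476.OR.S_COV`, in which `bb = 0` for even
functions, and the first part of `S_SRT`) -/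
def S_OVR : Prop := ∃ c : ℝ, 0 < c ∧ ∀ (n : ℕ) (W W' : ℝ → ℝ), 1 ≤ n → NV W W' →
  (∀ t, W (-t) = W t) → ∀ E : ℝ, LVL (fun _ : Fin n => W) E → ∀ R : Fin n → Fin n → Prop,
  (∀ a b, R a b → R b a → a = b) → (∀ a b c, R a b → R b c → R a c) →
  ‖dgn n‖ = 1 ∧ c ≤ VV (KV (fun _ : Fin n => W) E ∩ ordE R) fun x => ⟪x, dgn n⟫_ℝ

/-- OC-OCN: concentration on the body at an optimal level -/
def S_OCN : Prop := ∀ δ : ℝ, 0 < δ → ∃ κ : ℝ, 0 < κ ∧ ∀ (n : ℕ) (W W' : ℝ → ℝ), 1 ≤ n →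
  NV W W' → ∀ E : ℝ, LVL (fun _ : Fin n => W) E → ∀ R : Fin n → Fin n → Prop,
  (∀ a b, R a b → R b a → a = b) → (∀ a b c, R a b → R b c → R a c) →
  ∀ v : Eu (Fin n) → ℝ, ContDiff ℝ 1 v → (∀ x, |v x| ≤ 1) → (∀ x, ‖fderiv ℝ v x‖ ≤ κ) →
  VV (KV (fun _ : Fin n => W) E ∩ ordE R) v ≤ δ

/-- `L¹` inequality for a body, in the given position, for functions of large variance -/
def StB {n : ℕ} (c : ℝ) (D : Set (Eu (Fin n))) : Prop := ∀ s : ℝ, 0 < s →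
  (∀ θ : Eu (Fin n), ‖θ‖ = 1 → VV D (fun x => ⟪x, θ⟫_ℝ) ≤ s) →
  ∀ (f : Eu (Fin n) → ℝ) (L M : ℝ), Sm f L M → (∀ x, |f x| ≤ 1 / 2) → 1 / 5 < VV D f →
  VV D f ≤ c * Real.sqrt s * EV D fun x => ‖fderiv ℝ f x‖

/-- OC-LMB: limits of bodies -/
def S_LMB : Prop := ∀ (n : ℕ) (c : ℝ) (D : Set (Eu (Fin n))) (Dj : ℕ → Set (Eu (Fin n))), 0 ≤ c →
  Bornology.IsBounded D → MeasurableSet D → 0 < volume D →
  (∀ j, MeasurableSet (Dj j) ∧ Dj j ⊆ D) → Tendsto (fun j => volume (D \ Dj j)) atTop (𝓝 0) →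
  (∀ᶠ j in atTop, StB c (Dj j)) → StB c D

/-- OC-SMV: `C¹` even convex approximation of `V` from above (means over intervals), and
boundedness -/
def S_SMV : Prop := ∀ (n : ℕ) (V : ℝ → ℝ) (E : ℝ), 1 ≤ n → ConvexOn ℝ univ V →
  (∀ t, V (-t) = V t) → (∃ t, V t ≠ V 0) → n * V 0 < E →
  Bornology.IsBounded (KV (fun _ : Fin n => V) E) ∧ ∃ Vj Vj' : ℕ → ℝ → ℝ,
  (∀ j, CV (Vj j) (Vj' j) ∧ (∀ t, Vj j (-t) = Vj j t) ∧
    KV (fun _ : Fin n => Vj j) E ⊆ KV (fun _ : Fin n => V) E) ∧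
  (∀ᶠ j in atTop, ∃ x, SV (fun _ : Fin n => Vj j) x < E) ∧
  Tendsto (fun j => volume (KV (fun _ : Fin n => V) E \ KV (fun _ : Fin n => Vj j) E)) atTop (𝓝 0)

/-- OC-GEB: the body -/
def S_GEB : Prop := ∀ (n : ℕ) (V : ℝ → ℝ) (E : ℝ) (R : Fin n → Fin n → Prop), 1 ≤ n →
  ConvexOn ℝ univ V → n * V 0 < E → Bornology.IsBounded (KV (fun _ : Fin n => V) E) →
  (∀ a b, R a b → R b a → a = b) → (∀ a b c, R a b → R b c → R a c) →
  IsCompact (KV (fun _ : Fin n => V) E ∩ ordE R) ∧ Convex ℝ (KV (fun _ : Fin n => V) E ∩ ordE R) ∧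
  (interior (KV (fun _ : Fin n => V) E ∩ ordE R)).Nonempty

end Pool.Agent.J4H58.OC
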