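import Pool.Agent.J4H58.OC.Asm2
import Pool.Agent.J4H58.OC.Stm4

/-! OC-OCN: concentration on the order-constrained Orlicz ball at an optimal level. -/

set_option autoImplicit false

namespace Pool.Agent.J4H58.OC.Ocn

open MeasureTheory Set Filter Topology ProbabilityTheory
open scoped ENNReal InnerProductSpace
open Pool.Agent.W695.KH (Eu EU EV VV Sm)
open Pool.Agent.R476.OR (CV NV SV KV LVL ind)
open Pool.Agent.Y506.RG (ND)

variable {n : ℕ} {W W' : ℝ → ℝ}

theorem ld_of (h : NV W W') : LD fun t => Real.exp (-W t) :=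
  ⟨fun _ => (Real.exp_pos _).le, h.nd.lc, h.nd.int0, h.nd.mass⟩

theorem W_cont (h : NV W W') : Continuous W :=
  (show Differentiable ℝ W from fun t => (h.cv.der t).differentiableAt).continuous

theorem SV_cont (h : NV W W') : Continuous (SV (fun _ : Fin n => W)) := by
  unfold SV
  exact continuous_finsetSum _ fun i _ => (W_cont h).comp (by fun_prop)

theorem SV_exp (x : Eu (Fin n)) : Real.exp (-SV (fun _ : Fin n => W) x) =
    ∏ i, Real.exp (-W (x i)) := by
  unfold SV
  rw [← Finset.sum_neg_distrib, Real.exp_sum]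

theorem SV_sym (p : Equiv.Perm (Fin n)) (x : Eu (Fin n)) :
    SV (fun _ : Fin n => W) (WithLp.toLp 2 fun i => x (p i)) = SV (fun _ : Fin n => W) x := by
  unfold SV
  exact Equiv.sum_comp p fun i => W (x i)

theorem var_one (h : NV W W') : variance (fun x => x) (nu fun t => Real.exp (-W t)) = 1 := by
  have hw := ld_of h
  have hprob := nu_prob hw
  have h1 := memLp_id hw
  have hmeas : Measurable fun x => ENNReal.ofReal (Real.exp (-W x)) :=
    (Real.continuous_exp.comp (W_cont h).neg).measurable.ennreal_ofReal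
  have hlt : ∀ᵐ x : ℝ, ENNReal.ofReal (Real.exp (-W x)) < ∞ :=
    Eventually.of_forall fun x => ENNReal.ofReal_lt_top
  have hint : ∀ G : ℝ → ℝ, ∫ x, G x ∂(nu fun t => Real.exp (-W t)) =
      ∫ x, G x * Real.exp (-W x) := by
    intro G
    unfold nu
    rw [integral_withDensity_eq_integral_toReal_smul hmeas hlt]
    apply integral_congr_ae
    refine Eventually.of_forall fun x => ?_
    show (ENNReal.ofReal (Real.exp (-W x))).toReal • G x = G x * Real.exp (-W x)
    rw [ENNReal.toReal_ofReal (Real.exp_pos _).le, smul_eq_mul, mul_comm]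
  rw [variance_eq_sub h1]
  have e1 : ∫ x, x ∂(nu fun t => Real.exp (-W t)) = 0 := by
    rw [hint]
    exact h.nd.mean
  have e2 : ∫ x, ((fun x : ℝ => x) ^ 2) x ∂(nu fun t => Real.exp (-W t)) = 1 := by
    rw [hint]
    exact h.nd.var
  rw [e2]
  show 1 - (∫ x, x ∂(nu fun t => Real.exp (-W t))) ^ 2 = 1
  rw [e1]
  norm_num

theorem ordE_iff (R : Fin n → Fin n → Prop) (x : Eu (Fin n)) :
    WithLp.ofLp x ∈ ord R ↔ x ∈ ordE R := Iff.rfl

theorem ordE_meas (R : Fin n → Fin n → Prop) : MeasurableSet (ordE R) := by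
  have h1 : ordE R = WithLp.ofLp ⁻¹' ord R := rfl
  rw [h1]
  exact (Pool.Agent.J4H52.OC.ord_closed R).measurableSet.preimage
    (PiLp.continuous_ofLp 2 _).measurable

/-- integrals under the law -/
theorem law_int' (h : NV W W') (R : Fin n → Fin n → Prop)
    (hR : pn (fun t => Real.exp (-W t)) n (ord R) ≠ 0) (G : Eu (Fin n) → ℝ) :
    ∫ x, G x ∂(law (fun t => Real.exp (-W t)) R) =
      (pn (fun t => Real.exp (-W t)) n (ord R)).toReal⁻¹ *
        ∫ x in ordE R, G x * Real.exp (-SV (fun _ : Fin n => W) x) := by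
  classical
  have hw := ld_of h
  rw [Pool.Agent.J4H52.OC.law_eq hw R hR,
    integral_withDensity_eq_integral_toReal_smul
      ((Pool.Agent.J4H52.OC.rho_meas hw R).ennreal_ofReal)
      (Eventually.of_forall fun x => ENNReal.ofReal_lt_top),
    ← integral_indicator (ordE_meas R), ← integral_const_mul]
  apply integral_congr_ae
  refine Eventually.of_forall fun x => ?_
  show (ENNReal.ofReal (Pool.Agent.J4H52.OC.rho (fun t => Real.exp (-W t)) R x)).toReal • G x = _
  rw [ENNReal.toReal_ofReal (Pool.Agent.J4H52.OC.rho_nonneg hw R x), smul_eq_mul]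
  unfold Pool.Agent.J4H52.OC.rho
  show _ = (pn (fun t => Real.exp (-W t)) n (ord R)).toReal⁻¹ *
    (ordE R).indicator (fun x => G x * Real.exp (-SV (fun _ : Fin n => W) x)) x
  by_cases hx : x ∈ ordE R
  · rw [indicator_of_mem hx, if_pos ((ordE_iff R x).2 hx), SV_exp]
    ring
  · rw [indicator_of_notMem hx, if_neg fun h => hx ((ordE_iff R x).1 h)]
    ring

theorem ocn (hsrt : S_SRT) (hstl : S_STL) : S_OCN := by
  obtain ⟨C, hC, hst⟩ := hstl
  intro δ hδ
  refine ⟨min 1 (δ / (11 * C)), lt_min one_pos (by positivity), ?_⟩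
  set κ : ℝ := min 1 (δ / (11 * C)) with hκ
  have hκ0 : 0 < κ := lt_min one_pos (by positivity)
  intro n W W' hn hW E hE R hanti htr v hv hv1 hvκ
  have hw := ld_of hW
  have hR : pn (fun t => Real.exp (-W t)) n (ord R) ≠ 0 :=
    Pool.Agent.J4H64.OC.t_POS _ n R hw hanti htr
  have hlawp := law_prob hw hR
  have hpnp := pn_prob (n := n) hw
  set μ := law (fun t => Real.exp (-W t)) R with hμ
  -- Poincaré
  have hPI : PI μ 48 := pi_48 hw R hR (by norm_num) (by rw [var_one hW]; norm_num)
  have h1 := hPI v hv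
  set m : ℝ := ∫ x, v x ∂μ with hm
  have hvc := hv.continuous
  have hvint : Integrable v μ := Integrable.of_bound hvc.aestronglyMeasurable 1
    (Eventually.of_forall fun x => by rw [Real.norm_eq_abs]; exact hv1 x)
  have hmb : |m| ≤ 1 := by
    rw [hm, ← Real.norm_eq_abs]
    refine (norm_integral_le_of_norm_le_const (C := 1)
      (Eventually.of_forall fun x => by rw [Real.norm_eq_abs]; exact hv1 x)).trans ?_
    simp
  set U : Eu (Fin n) → ℝ := fun x => (v x - m) ^ 2 with hU
  have hvm : ∀ x, |v x - m| ≤ 2 := fun x => by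
    have := abs_sub (v x) m
    have h2 := hv1 x
    linarith
  have hU0 : ∀ x, 0 ≤ U x := fun x => sq_nonneg _
  have hU4 : ∀ x, U x ≤ 4 := fun x => by
    have h2 := hvm x
    have h3 : |v x - m| ^ 2 ≤ 2 ^ 2 := pow_le_pow_left₀ (abs_nonneg _) h2 2
    rw [sq_abs] at h3
    show (v x - m) ^ 2 ≤ 4
    linarith
  have hUl : ∀ x y, |U x - U y| ≤ 4 * κ * ‖x - y‖ := by
    intro x y
    have h2 : |v x - v y| ≤ κ * ‖x - y‖ := by
      have := convex_univ.norm_image_sub_le_of_norm_fderiv_le (𝕜 := ℝ) (f := v) (C := κ)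
        (fun z _ => hv.differentiable one_ne_zero z) (fun z _ => hvκ z) (mem_univ y) (mem_univ x)
      rwa [Real.norm_eq_abs] at this
    have h3 : U x - U y = (v x - v y) * ((v x - m) + (v y - m)) := by
      simp only [hU]
      ring
    rw [h3, abs_mul]
    have h4 : |(v x - m) + (v y - m)| ≤ 4 := by
      have := abs_add_le (v x - m) (v y - m)
      have h5 := hvm x
      have h6 := hvm y
      linarith
    calc |v x - v y| * |(v x - m) + (v y - m)| ≤ κ * ‖x - y‖ * 4 :=
          mul_le_mul h2 h4 (abs_nonneg _) (by positivity)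
      _ = _ := by ring
  have hUc : Continuous U := (hvc.sub continuous_const).pow 2
  have hUm : ∫ x, U x ∂μ ≤ 48 * κ ^ 2 := by
    have h2 : evariance v μ = ENNReal.ofReal (∫ x, U x ∂μ) := by
      rw [evariance_eq_lintegral_ofReal, ofReal_integral_eq_lintegral_ofReal]
      · exact Integrable.of_bound hUc.aestronglyMeasurable 4
          (Eventually.of_forall fun x => by
            rw [Real.norm_eq_abs, abs_of_nonneg (hU0 x)]
            exact hU4 x)
      · exact Eventually.of_forall hU0
    have h3 : ∫⁻ x, ENNReal.ofReal (‖fderiv ℝ v x‖ ^ 2) ∂μ ≤ ENNReal.ofReal (κ ^ 2) := by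
      calc ∫⁻ x, ENNReal.ofReal (‖fderiv ℝ v x‖ ^ 2) ∂μ ≤ ∫⁻ _x, ENNReal.ofReal (κ ^ 2) ∂μ := by
            apply lintegral_mono
            intro x
            exact ENNReal.ofReal_le_ofReal (pow_le_pow_left₀ (norm_nonneg _) (hvκ x) 2)
        _ = ENNReal.ofReal (κ ^ 2) := by simp
    rw [h2] at h1
    have h4 : ENNReal.ofReal (∫ x, U x ∂μ) ≤ ENNReal.ofReal (48 * κ ^ 2) := by
      refine h1.trans ?_
      rw [ENNReal.ofReal_mul (by norm_num)]
      gcongr
    exact (ENNReal.ofReal_le_ofReal_iff (by positivity)).1 h4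
  -- symmetrisation
  obtain ⟨c, hc, hs1, hs2⟩ := hsrt n R hanti htr
  obtain ⟨T, hT0, hT4, hTl, hTg⟩ := hs2 U (4 * κ) (by positivity) hU0 hU4 hUl
  set e : Eu (Fin n) → ℝ := fun x => Real.exp (-SV (fun _ : Fin n => W) x) with he
  have hec : Continuous e := Real.continuous_exp.comp (SV_cont hW).neg
  have hesym : SymF e := fun p x => by
    simp only [he]
    rw [SV_sym]
  have hmass : ∫ x, e x = 1 ∧ Integrable e := by
    -- the law of the unconstrained points
    have hR0 : pn (fun t => Real.exp (-W t)) n (ord (fun _ _ : Fin n => False)) = 1 := by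
      have h2 : ord (fun _ _ : Fin n => False) = univ := by
        ext x
        simp [ord]
      rw [h2, measure_univ]
    have h3 := law_int' hW (fun _ _ : Fin n => False) (by rw [hR0]; exact one_ne_zero) fun _ => 1
    have h4 : ordE (fun _ _ : Fin n => False) = univ := by
      ext x
      simp [ordE]
    have h5 := law_prob hw (n := n) (R := fun _ _ => False) (by rw [hR0]; exact one_ne_zero)
    rw [hR0, h4, Measure.restrict_univ] at h3
    simp only [integral_const, probReal_univ, smul_eq_mul, mul_one, ENNReal.toReal_one, inv_one,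
      one_mul] at h3
    refine ⟨h3.symm, ?_⟩
    by_contra hni
    rw [integral_undef hni] at h3
    exact one_ne_zero h3
  obtain ⟨hmass, heint⟩ := hmass
  have hcV : c = (pn (fun t => Real.exp (-W t)) n (ord R)).toReal := by
    have h2 := hs1 e heint hesym
    rw [hmass, mul_one] at h2
    have h3 := law_int' hW R hR fun _ => 1
    simp only [integral_const, probReal_univ, smul_eq_mul, mul_one, one_mul] at h3
    have hV : (pn (fun t => Real.exp (-W t)) n (ord R)).toReal ≠ 0 :=
      (ENNReal.toReal_pos hR (measure_ne_top _ _)).ne'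
    have h4 : ∫ x in ordE R, e x = (pn (fun t => Real.exp (-W t)) n (ord R)).toReal := by
      field_simp at h3
      exact h3.symm
    rw [← h2, h4]
  have hTm : ∫ x, T x * e x ≤ 48 * κ ^ 2 := by
    have h2 := hTg e heint hesym
    have h3 := law_int' hW R hR U
    rw [← hμ, ← hcV] at h3
    have h4 : ∫ x in ordE R, U x * Real.exp (-SV (fun _ : Fin n => W) x) =
      ∫ x in ordE R, U x * e x := rfl
    rw [h4, h2] at h3
    have h5 : c⁻¹ * (c * ∫ x, T x * e x) = ∫ x, T x * e x := by
      field_simp
    rw [h5] at h3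
    rw [← h3]
    exact hUm
  -- the ball
  have hη : ∫ x, T x * Real.exp (-SV (fun _ : Fin n => W) x) ≤ (7 * κ) ^ 2 := by
    refine hTm.trans ?_
    nlinarith [sq_nonneg κ]
  have hball := hst n (fun _ => W) (fun _ => W') (fun _ => hW) E hE T (4 * κ) (7 * κ) hT0 hT4
    (by positivity) hTl (by positivity) hη
  set KK : Set (Eu (Fin n)) := KV (fun _ : Fin n => W) E with hKK
  have hKm : MeasurableSet KK := (isClosed_le (SV_cont hW) continuous_const).measurableSet
  have hKfin : volume KK ≠ ∞ := hE.bdd.measure_lt_top.ne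
  set g : Eu (Fin n) → ℝ := KK.indicator fun _ => 1 with hg
  have hgint : Integrable g := by
    rw [hg, integrable_indicator_iff hKm]
    exact integrableOn_const hKfin
  have hgsym : SymF g := fun p x => by
    have h2 : (WithLp.toLp 2 fun i => x (p i) : Eu (Fin n)) ∈ KK ↔ x ∈ KK := by
      show SV (fun _ : Fin n => W) (WithLp.toLp 2 fun i => x (p i)) ≤ E ↔ SV (fun _ : Fin n => W) x ≤ E
      rw [SV_sym]
    simp only [hg]
    by_cases hx : x ∈ KK
    · rw [indicator_of_mem hx, indicator_of_mem (h2.2 hx)]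
    · rw [indicator_of_notMem hx, indicator_of_notMem fun h => hx (h2.1 h)]
  have hvol : (volume (KK ∩ ordE R)).toReal = c * (volume KK).toReal := by
    have h2 := hs1 g hgint hgsym
    have h3 : ∫ x, g x = (volume KK).toReal := by
      rw [hg, integral_indicator hKm, setIntegral_const]
      simp [Measure.real]
    have h4 : ∫ x in ordE R, g x = (volume (KK ∩ ordE R)).toReal := by
      rw [hg, integral_indicator hKm, Measure.restrict_restrict hKm, setIntegral_const]
      simp [Measure.real]
    rw [h3, h4] at h2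
    exact h2
  have hUK : ∫ x in KK ∩ ordE R, U x = c * ∫ x in KK, T x := by
    have h2 := hTg g hgint hgsym
    have h3 : ∀ (F : Eu (Fin n) → ℝ) (x : Eu (Fin n)), F x * g x = KK.indicator F x := by
      intro F x
      by_cases hx : x ∈ KK
      · simp only [hg, indicator_of_mem hx, mul_one]
      · simp only [hg, indicator_of_notMem hx, mul_zero]
    simp only [h3] at h2
    rw [integral_indicator hKm, integral_indicator hKm, Measure.restrict_restrict hKm] at h2
    exact h2
  have hVp : 0 < (volume (KK ∩ ordE R)).toReal := by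
    rw [hvol]
    exact mul_pos hc (ENNReal.toReal_pos hE.pos.ne' hKfin)
  set V := (volume (KK ∩ ordE R)).toReal with hVdef
  have hEU : EV (KK ∩ ordE R) U ≤ 11 * C * κ := by
    unfold EV
    rw [hUK, ← hVdef, div_le_iff₀ hVp, hvol]
    calc c * ∫ x in KK, T x ≤ c * (C * (7 * κ + 4 * κ) * (volume KK).toReal) :=
          mul_le_mul_of_nonneg_left hball hc.le
      _ = 11 * C * κ * (c * (volume KK).toReal) := by ring
  -- variance
  have hDm : MeasurableSet (KK ∩ ordE R) := hKm.inter (ordE_meas R)
  have hDfin : volume (KK ∩ ordE R) ≠ ∞ :=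
    ((measure_mono inter_subset_left).trans_lt hKfin.lt_top).ne
  have hvI : IntegrableOn v (KK ∩ ordE R) := by
    refine Measure.integrableOn_of_bounded (M := 1) hDfin hvc.aestronglyMeasurable ?_
    exact Eventually.of_forall fun x => by rw [Real.norm_eq_abs]; exact hv1 x
  have hv2I : IntegrableOn (fun x => v x ^ 2) (KK ∩ ordE R) := by
    refine Measure.integrableOn_of_bounded (M := 1) hDfin (hvc.pow 2).aestronglyMeasurable ?_
    exact Eventually.of_forall fun x => by
      rw [Real.norm_eq_abs, abs_pow]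
      exact pow_le_one₀ (abs_nonneg _) (hv1 x)
  have hEUe : EV (KK ∩ ordE R) U = EV (KK ∩ ordE R) (fun x => v x ^ 2) -
      2 * m * EV (KK ∩ ordE R) v + m ^ 2 := by
    unfold EV
    rw [← hVdef]
    have h2 : ∫ x in KK ∩ ordE R, U x = (∫ x in KK ∩ ordE R, v x ^ 2) -
        2 * m * (∫ x in KK ∩ ordE R, v x) + m ^ 2 * V := by
      have h3 : ∀ x, U x = v x ^ 2 - 2 * m * v x + m ^ 2 := fun x => by
        simp only [hU]
        ring
      simp only [h3]
      have h4 : IntegrableOn (fun x => 2 * m * v x) (KK ∩ ordE R) := hvI.const_mul _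
      have h5 : IntegrableOn (fun x => v x ^ 2 - 2 * m * v x) (KK ∩ ordE R) := hv2I.sub h4
      have h6 : IntegrableOn (fun _ : Eu (Fin n) => m ^ 2) (KK ∩ ordE R) :=
        integrableOn_const hDfin
      rw [integral_add h5 h6, integral_sub hv2I h4, integral_const_mul, setIntegral_const]
      simp [Measure.real, hVdef, mul_comm]
    rw [h2]
    field_simp
  unfold VV
  have h9 : 11 * C * κ ≤ δ := by
    have h2 : κ ≤ δ / (11 * C) := min_le_right _ _
    rw [le_div_iff₀ (by positivity)] at h2
    linarith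
  nlinarith [sq_nonneg (EV (KK ∩ ordE R) v - m)]

end Pool.Agent.J4H58.OC.Ocn
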