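import Pool.Agent.R972.OP.Stm

/-!
# Independent points conditioned on a partial order: statements (project OC, MP_6d896a_gt)

`n` independent points with a log-concave density `w` on the line, conditioned on
`x_i ≤ x_j` whenever `R i j`.
-/

set_option autoImplicit false

namespace Pool.Agent.J4H58.OC

open MeasureTheory Set Filter Topology ProbabilityTheory
open scoped ENNReal
open Pool.Agent.R972.OP (WC OPp pd)

/-! ### lattice -/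

/-- rates for the weight `b` -/
noncomputable def rt (b : ℝ → ℝ) (N k : ℕ) : ℝ := (N : ℝ) ^ 2 * b (((k : ℝ) + 1) / N)

/-- OC-GL: the logistic weight -/
def S_GL : Prop := ∀ N : ℕ, 0 < N → ∃ (W c : ℕ → ℝ) (m : ℝ), WC N W c m ∧
  ∀ k, k + 1 < N → c k ≤ rt (fun x => 4 * (x * (1 - x)) ^ 2) N k

/-- OC-PF: positive extremal function (Perron-Frobenius): a Poincare inequality for one particle on
the path gives an increasing eigenfunction -/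
def S_PF : Prop := ∀ (N : ℕ) (c : ℕ → ℝ) (K : ℝ), (∀ k, k + 1 < N → 0 < c k) →
  (∀ φ : ℕ → ℝ, (N : ℝ) * ∑ k ∈ Finset.range N, φ k ^ 2 - (∑ k ∈ Finset.range N, φ k) ^ 2 ≤
    N * (K * ∑ k ∈ Finset.range (N - 1), c k * (φ (k + 1) - φ k) ^ 2)) →
  ∃ (W c' : ℕ → ℝ) (m : ℝ), WC N W c' m ∧ ∀ k, k + 1 < N → c' k ≤ K * c k

/-- weighted Poincare inequality on the unit interval, for the primitives of bounded functions -/
def One (a : ℝ → ℝ) : Prop := ∀ ψ : ℝ → ℝ, Measurable ψ → (∃ B, ∀ x, |ψ x| ≤ B) →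
  (∫ x in (0 : ℝ)..1, (∫ t in (0 : ℝ)..x, ψ t) ^ 2) -
    (∫ x in (0 : ℝ)..1, ∫ t in (0 : ℝ)..x, ψ t) ^ 2 ≤ ∫ x in (0 : ℝ)..1, a x * ψ x ^ 2

/-- OC-DISC: discretisation of the one-dimensional inequality -/
def S_DISC : Prop := ∀ a : ℝ → ℝ, ContinuousOn a (Icc 0 1) → (∀ x ∈ Icc (0 : ℝ) 1, 0 ≤ a x) →
  One a → ∀ η : ℝ, 0 < η → ∀ᶠ N : ℕ in atTop, ∀ φ : ℕ → ℝ,
  (N : ℝ) * ∑ k ∈ Finset.range N, φ k ^ 2 - (∑ k ∈ Finset.range N, φ k) ^ 2 ≤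
    N * ((1 + η) * ∑ k ∈ Finset.range (N - 1), rt (fun x => a x + η) N k * (φ (k + 1) - φ k) ^ 2)

/-- OC-LIM: the weighted inequality on order polytopes -/
def S_LIM : Prop := ∀ b : ℝ → ℝ, ContinuousOn b (Icc 0 1) → (∀ x ∈ Icc (0 : ℝ) 1, 0 ≤ b x) →
  (∀ᶠ N : ℕ in atTop, ∃ (W c : ℕ → ℝ) (m : ℝ), WC N W c m ∧ ∀ k, k + 1 < N → c k ≤ rt b N k) →
  ∀ (n : ℕ) (R : Fin n → Fin n → Prop), (∀ a, ¬ R a a) →
  ∀ f : (Fin n → ℝ) → ℝ, ContDiff ℝ 1 f →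
  (volume (OPp R)).toReal * (∫ x in OPp R, f x ^ 2) - (∫ x in OPp R, f x) ^ 2 ≤
    (volume (OPp R)).toReal * ∫ x in OPp R, ∑ a, b (x a) * pd f a x ^ 2

/-! ### the line -/

/-- log-concave probability density on the line -/
structure LD (w : ℝ → ℝ) : Prop where
  nonneg : ∀ x, 0 ≤ w x
  logc : ∀ x y t : ℝ, 0 < t → t < 1 → w x ^ (1 - t) * w y ^ t ≤ w ((1 - t) * x + t * y)
  int : Integrable w
  one : ∫ x, w x = 1

/-- distribution function -/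
noncomputable def Fc (w : ℝ → ℝ) (t : ℝ) : ℝ := ∫ x in Iic t, w x

open Classical in
/-- quantile function -/
noncomputable def qt (w : ℝ → ℝ) (x : ℝ) : ℝ := if h : ∃ t, Fc w t = x then h.choose else 0

/-- the law with density `w` -/
noncomputable def nu (w : ℝ → ℝ) : Measure ℝ := volume.withDensity fun x => ENNReal.ofReal (w x)

/-- OC-Q: the quantile function of a log-concave density -/
def S_Q : Prop := ∀ w : ℝ → ℝ, LD w →
  (∀ x ∈ Ioo (0 : ℝ) 1, Fc w (qt w x) = x) ∧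
  (∀ t, Fc w t ∈ Ioo (0 : ℝ) 1 → qt w (Fc w t) = t) ∧
  (∀ x ∈ Ioo (0 : ℝ) 1, 0 < w (qt w x) ∧ HasDerivAt (qt w) (w (qt w x))⁻¹ x ∧
    ContinuousAt w (qt w x)) ∧
  StrictMonoOn (qt w) (Ioo 0 1) ∧
  (volume.restrict (Ioo (0 : ℝ) 1)).map (qt w) = nu w ∧
  ∀ s, ∀ x ∈ Ioo (0 : ℝ) 1, w s * (x * (1 - x)) ≤ w (qt w x)

/-- OC-V12: variance of a bounded density -/
def S_V12 : Prop := ∀ (w : ℝ → ℝ) (M m : ℝ), (∀ x, 0 ≤ w x) → (∀ x, w x ≤ M) → Integrable w →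
  ∫ x, w x = 1 → Integrable (fun x => (x - m) ^ 2 * w x) →
  1 / (12 * M ^ 2) ≤ ∫ x, (x - m) ^ 2 * w x

/-! ### measures on `ℝⁿ` -/

/-- the cone of the points which are compatible with `R` -/
def ord {n : ℕ} (R : Fin n → Fin n → Prop) : Set (Fin n → ℝ) := {x | ∀ i j, R i j → x i ≤ x j}

/-- OC-SYM: symmetric functions and the ranks are independent -/
def S_SYM : Prop := ∀ (n : ℕ) (ν : Measure ℝ), IsProbabilityMeasure ν → (∀ x, ν {x} = 0) →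
  ∀ (R : Fin n → Fin n → Prop) (G : (Fin n → ℝ) → ℝ), Integrable G (Measure.pi fun _ => ν) →
  (∀ (p : Equiv.Perm (Fin n)) (x : Fin n → ℝ), G (fun i => x (p i)) = G x) →
  ∫ x in ord R, G x ∂(Measure.pi fun _ => ν) =
    ((Measure.pi fun _ => ν) (ord R)).toReal * ∫ x, G x ∂(Measure.pi fun _ => ν)

/-- OC-EXT: from compactly supported functions to all `C¹` functions -/
def S_EXT : Prop := ∀ (n : ℕ) (μ : Measure (EuclideanSpace ℝ (Fin n))), IsProbabilityMeasure μ →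
  ∀ K : ℝ, 0 < K → (∀ f : EuclideanSpace ℝ (Fin n) → ℝ, ContDiff ℝ 1 f → HasCompactSupport f →
    ∫ x, f x ^ 2 ∂μ - (∫ x, f x ∂μ) ^ 2 ≤ K * ∫ x, ‖fderiv ℝ f x‖ ^ 2 ∂μ) →
  ∀ f : EuclideanSpace ℝ (Fin n) → ℝ, ContDiff ℝ 1 f →
  evariance f μ ≤ ENNReal.ofReal K * ∫⁻ x, ENNReal.ofReal (‖fderiv ℝ f x‖ ^ 2) ∂μ

end Pool.Agent.J4H58.OC
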