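import Pool.Agent.J4H58.OC.Stm

/-!
# Independent points conditioned on a partial order: statements, part 2 (project OC, MP_6d896a_gt)

The Poincaré constant of `n` independent points with a log-concave density conditioned on a partial
order is the one of a single point.
-/

set_option autoImplicit false

namespace Pool.Agent.J4H58.OC

open MeasureTheory Set Filter Topology ProbabilityTheory
open scoped ENNReal
open Pool.Agent.R972.OP (WC OPp pd)

/-- Poincaré inequality with constant `K` for a measure on the line -/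
def PI1 (μ : Measure ℝ) (K : ℝ) : Prop := ∀ φ : ℝ → ℝ, ContDiff ℝ 1 φ →
  evariance φ μ ≤ ENNReal.ofReal K * ∫⁻ x, ENNReal.ofReal (deriv φ x ^ 2) ∂μ

/-- Poincaré inequality with constant `K` for a measure on `ℝⁿ` -/
def PI {n : ℕ} (μ : Measure (EuclideanSpace ℝ (Fin n))) (K : ℝ) : Prop :=
  ∀ f : EuclideanSpace ℝ (Fin n) → ℝ, ContDiff ℝ 1 f →
  evariance f μ ≤ ENNReal.ofReal K * ∫⁻ x, ENNReal.ofReal (‖fderiv ℝ f x‖ ^ 2) ∂μ

/-- the law of `n` independent points with density `w`, in `Fin n → ℝ` -/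
noncomputable def pn (w : ℝ → ℝ) (n : ℕ) : Measure (Fin n → ℝ) := Measure.pi fun _ => nu w

/-- conditioned on `R`, in Euclidean space -/
noncomputable def law {n : ℕ} (w : ℝ → ℝ) (R : Fin n → Fin n → Prop) :
    Measure (EuclideanSpace ℝ (Fin n)) :=
  (((pn w n) (ord R))⁻¹ • (pn w n).restrict (ord R)).map (WithLp.toLp 2)

/-- OC-ONE: from the Poincaré inequality of `nu w` to the weighted inequality on the unit interval
(`ψ ∘ F · w` is approximated by continuous functions with compact support) -/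
def S_ONE : Prop := ∀ (w : ℝ → ℝ) (K : ℝ), LD w → 0 < K → PI1 (nu w) K →
  One fun x => K * w (qt w x) ^ 2

/-- the weight `b` has lattice approximations and is dominated after a contraction of the interval -/
def Good (w : ℝ → ℝ) (K δ : ℝ) : Prop := ∃ b : ℝ → ℝ, ContinuousOn b (Icc 0 1) ∧
  (∀ x ∈ Icc (0 : ℝ) 1, 0 ≤ b x) ∧
  (∀ᶠ N : ℕ in atTop, ∃ (W c : ℕ → ℝ) (m : ℝ), WC N W c m ∧ ∀ k, k + 1 < N → c k ≤ rt b N k) ∧
  ∀ x ∈ Ioo (0 : ℝ) 1, b x * (1 - 2 * δ) ^ 2 ≤ K * w (qt w (δ + (1 - 2 * δ) * x)) ^ 2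

/-- OC-GOOD: the sharp weight. With `I x = w (qt w x)`: `I y ≥ I x (1 - y) / (1 - x)` for `x < y` and
`I y ≥ I x y / x` for `y < x`, so `I (δ + (1 - 2 δ) x) ≥ (1 - 2 δ) I (max δ (min (1 - δ) x))` and the
right-hand side is at least `(1 - 2 δ) (1 - δ) I x`; `b = (1 + η) (K I (max δ (min (1 - δ) x))² /
(1 - δ)² + η)`, first `δ` and then `η` small. -/
def S_GOOD : Prop := ∀ (w : ℝ → ℝ) (K : ℝ), LD w → 0 < K → (One fun x => K * w (qt w x) ^ 2) →
  ∀ K' : ℝ, K < K' → ∀ᶠ δ : ℝ in 𝓝[>] 0, Good w K' δ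

/-- OC-TR: transport -/
def S_TR : Prop := ∀ (w : ℝ → ℝ) (K : ℝ), LD w → 0 < K → (∀ᶠ δ : ℝ in 𝓝[>] 0, Good w K δ) →
  ∀ (n : ℕ) (R : Fin n → Fin n → Prop), (∀ a, ¬ R a a) →
  ∀ f : (Fin n → ℝ) → ℝ, ContDiff ℝ 1 f → HasCompactSupport f →
  (pn w n (ord R)).toReal * (∫ x in ord R, f x ^ 2 ∂(pn w n)) - (∫ x in ord R, f x ∂(pn w n)) ^ 2 ≤
    (pn w n (ord R)).toReal * (K * ∫ x in ord R, ∑ a, pd f a x ^ 2 ∂(pn w n))

/-- OC-POS: the conditioning event has positive probability -/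
def S_POS : Prop := ∀ (w : ℝ → ℝ) (n : ℕ) (R : Fin n → Fin n → Prop), LD w →
  (∀ a b, R a b → R b a → a = b) → (∀ a b c, R a b → R b c → R a c) → pn w n (ord R) ≠ 0

/-- OC-REV: the constant of one point is not larger -/
def S_REV : Prop := ∀ (w : ℝ → ℝ) (n : ℕ) (R : Fin n → Fin n → Prop) (K : ℝ), LD w → 1 ≤ n →
  pn w n (ord R) ≠ 0 → 0 < K → PI (law w R) K → PI1 (nu w) K

/-- OC-VAR: the variance in the direction `(1, ..., 1)` (if it is finite) -/
def S_VAR : Prop := ∀ (w : ℝ → ℝ) (n : ℕ) (R : Fin n → Fin n → Prop), LD w →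
  pn w n (ord R) ≠ 0 → MemLp (fun x => x) 2 (nu w) →
  MemLp (fun x : EuclideanSpace ℝ (Fin n) => ∑ i, x i) 2 (law w R) ∧
  variance (fun x : EuclideanSpace ℝ (Fin n) => ∑ i, x i) (law w R) =
    n * variance (fun x => x) (nu w)

end Pool.Agent.J4H58.OC
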