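import Pool.Agent.J4H58.OC.Stm2
import Pool.Agent.R372.OP.SYM

/-! OC-TR: transport of the weighted inequality on order polytopes to the points with density `w`. -/

set_option autoImplicit false

namespace Pool.Agent.J4H58.OC.Tr

open MeasureTheory Set Filter Topology ProbabilityTheory
open scoped ENNReal
open Pool.Agent.R972.OP (WC OPp pd)

variable {w : ℝ → ℝ} {n : ℕ}

/-- the clamp -/
noncomputable def cl (δ s : ℝ) : ℝ := max δ (min (1 - δ) s)

theorem cl_mem {δ : ℝ} (h0 : 0 < δ) (h1 : δ < 1 / 2) (s : ℝ) : cl δ s ∈ Ioo (0 : ℝ) 1 := by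
  unfold cl
  constructor
  · exact lt_of_lt_of_le h0 (le_max_left _ _)
  · apply max_lt (by linarith)
    exact lt_of_le_of_lt (min_le_left _ _) (by linarith)

theorem cl_eq {δ s : ℝ} (h : s ∈ Icc δ (1 - δ)) : cl δ s = s := by
  unfold cl
  rw [min_eq_right h.2, max_eq_right h.1]

/-- derivative of the quantile function, continued by constants -/
noncomputable def hd (w : ℝ → ℝ) (δ s : ℝ) : ℝ := (w (qt w (cl δ s)))⁻¹

theorem hd_cont (hw : LD w) (hQ : S_Q) {δ : ℝ} (h0 : 0 < δ) (h1 : δ < 1 / 2) :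
    Continuous (hd w δ) := by
  obtain ⟨-, -, h3, -, -, -⟩ := hQ w hw
  rw [continuous_iff_continuousAt]
  intro s
  obtain ⟨h4, h5, h6⟩ := h3 _ (cl_mem h0 h1 s)
  have h7 : ContinuousAt (cl δ) s := by
    unfold cl
    fun_prop
  have h8 : ContinuousAt (fun s => w (qt w (cl δ s))) s := by
    have h9 : ContinuousAt (fun x => w (qt w x)) (cl δ s) :=
      ContinuousAt.comp (f := qt w) (g := w) h6 h5.continuousAt
    exact ContinuousAt.comp (f := cl δ) (g := fun x => w (qt w x)) h9 h7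
  exact h8.inv₀ h4.ne'

/-- the quantile function, continued -/
noncomputable def tau (w : ℝ → ℝ) (δ x : ℝ) : ℝ := qt w (1 / 2) + ∫ s in (1 / 2 : ℝ)..x, hd w δ s

theorem tau_deriv (hw : LD w) (hQ : S_Q) {δ : ℝ} (h0 : 0 < δ) (h1 : δ < 1 / 2) (x : ℝ) :
    HasDerivAt (tau w δ) (hd w δ x) x := by
  have hc := hd_cont hw hQ h0 h1
  unfold tau
  exact (intervalIntegral.integral_hasDerivAt_right (hc.intervalIntegrable _ _)
    (hc.stronglyMeasurableAtFilter _ _) hc.continuousAt).const_add _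

theorem tau_eq (hw : LD w) (hQ : S_Q) {δ : ℝ} (h0 : 0 < δ) (h1 : δ < 1 / 2) {x : ℝ}
    (hx : x ∈ Icc δ (1 - δ)) : tau w δ x = qt w x := by
  obtain ⟨-, -, h3, -, -, -⟩ := hQ w hw
  have hsub : uIcc (1 / 2) x ⊆ Icc δ (1 - δ) := by
    exact uIcc_subset_Icc ⟨h1.le, by linarith⟩ hx
  have h4 : ∫ s in (1 / 2 : ℝ)..x, hd w δ s = qt w x - qt w (1 / 2) := by
    apply intervalIntegral.integral_eq_sub_of_hasDerivAt
    · intro s hs
      have hs' := hsub hs
      have h5 := (h3 s ⟨lt_of_lt_of_le h0 hs'.1, lt_of_le_of_lt hs'.2 (by linarith)⟩).2.1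
      unfold hd
      rwa [cl_eq hs']
    · exact (hd_cont hw hQ h0 h1).intervalIntegrable _ _
  unfold tau
  rw [h4]
  ring

theorem tau_cd (hw : LD w) (hQ : S_Q) {δ : ℝ} (h0 : 0 < δ) (h1 : δ < 1 / 2) :
    ContDiff ℝ 1 (tau w δ) := by
  rw [contDiff_one_iff_deriv]
  refine ⟨fun x => (tau_deriv hw hQ h0 h1 x).differentiableAt, ?_⟩
  have h2 : deriv (tau w δ) = hd w δ := funext fun x => (tau_deriv hw hQ h0 h1 x).deriv
  rw [h2]
  exact hd_cont hw hQ h0 h1

/-- contraction of the interval -/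
noncomputable def ph (δ s : ℝ) : ℝ := δ + (1 - 2 * δ) * s

theorem ph_mem {δ : ℝ} (h1 : δ < 1 / 2) {s : ℝ} (hs : s ∈ Icc (0 : ℝ) 1) :
    ph δ s ∈ Icc δ (1 - δ) := by
  unfold ph
  obtain ⟨h2, h3⟩ := hs
  constructor
  · nlinarith
  · nlinarith

/-- the map of configurations -/
noncomputable def Y (w : ℝ → ℝ) (δ : ℝ) (x : Fin n → ℝ) : Fin n → ℝ := fun i => tau w δ (ph δ (x i))

theorem Y_cd (hw : LD w) (hQ : S_Q) {δ : ℝ} (h0 : 0 < δ) (h1 : δ < 1 / 2) :
    ContDiff ℝ 1 (Y (n := n) w δ) := by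
  rw [contDiff_pi]
  intro i
  apply (tau_cd hw hQ h0 h1).comp
  unfold ph
  fun_prop

theorem Y_deriv (hw : LD w) (hQ : S_Q) {δ : ℝ} (h0 : 0 < δ) (h1 : δ < 1 / 2) (x : Fin n → ℝ)
    (a : Fin n) : HasDerivAt (fun t : ℝ => Y w δ (x + t • Pi.single a (1 : ℝ)))
      ((hd w δ (ph δ (x a)) * (1 - 2 * δ)) • Pi.single a (1 : ℝ)) 0 := by
  rw [hasDerivAt_pi]
  intro i
  by_cases hi : i = a
  · subst hi
    have h2 : HasDerivAt (fun t : ℝ => ph δ ((x + t • (Pi.single i (1 : ℝ) : Fin n → ℝ)) i)) (1 - 2 * δ) 0 := by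
      have e : (fun t : ℝ => ph δ ((x + t • (Pi.single i (1 : ℝ) : Fin n → ℝ)) i)) =
          fun t => δ + (1 - 2 * δ) * (x i + t) := by
        funext t
        simp [ph]
      rw [e]
      have := (((hasDerivAt_id (0 : ℝ)).const_add (x i)).const_mul (1 - 2 * δ)).const_add δ
      simpa using this
    have h3 := (tau_deriv hw hQ h0 h1 (ph δ ((x + (0 : ℝ) • (Pi.single i (1 : ℝ) : Fin n → ℝ)) i))).comp 0 h2
    have e2 : (x + (0 : ℝ) • (Pi.single i (1 : ℝ) : Fin n → ℝ)) i = x i := by simp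
    rw [e2] at h3
    have h4 : (((hd w δ (ph δ (x i)) * (1 - 2 * δ)) • Pi.single i (1 : ℝ) : Fin n → ℝ)) i =
        hd w δ (ph δ (x i)) * (1 - 2 * δ) := by simp
    rw [h4]
    exact h3
  · have e : (fun t : ℝ => Y w δ (x + t • Pi.single a (1 : ℝ)) i) =
        fun _ => tau w δ (ph δ (x i)) := by
      funext t
      simp [Y, Pi.single_eq_of_ne hi]
    rw [e]
    have e2 : ((hd w δ (ph δ (x a)) * (1 - 2 * δ)) • Pi.single a (1 : ℝ) : Fin n → ℝ) i = 0 := by
      simp [Pi.single_eq_of_ne hi]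
    rw [e2]
    exact hasDerivAt_const _ _

theorem pd_comp (hw : LD w) (hQ : S_Q) {δ : ℝ} (h0 : 0 < δ) (h1 : δ < 1 / 2)
    {f : (Fin n → ℝ) → ℝ} (hf : ContDiff ℝ 1 f) (x : Fin n → ℝ) (a : Fin n) :
    pd (fun x => f (Y w δ x)) a x = hd w δ (ph δ (x a)) * (1 - 2 * δ) * pd f a (Y w δ x) := by
  have hg : ContDiff ℝ 1 (fun x => f (Y w δ x)) := hf.comp (Y_cd hw hQ h0 h1)
  have h2 : HasDerivAt (fun t : ℝ => x + t • Pi.single a (1 : ℝ)) (Pi.single a (1 : ℝ)) 0 := by
    have := ((hasDerivAt_id (0 : ℝ)).smul_const (Pi.single a (1 : ℝ) : Fin n → ℝ)).const_add x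
    simpa using this
  have e0 : x + (0 : ℝ) • (Pi.single a (1 : ℝ) : Fin n → ℝ) = x := by simp
  have h3 : HasDerivAt (fun t : ℝ => f (Y w δ (x + t • Pi.single a (1 : ℝ))))
      (fderiv ℝ (fun x => f (Y w δ x)) x (Pi.single a 1)) 0 := by
    have h4 := (hg.differentiable one_ne_zero (x + (0 : ℝ) • Pi.single a (1 : ℝ))).hasFDerivAt
    have h5 := h4.comp_hasDerivAt 0 h2
    rw [e0] at h5
    exact h5
  have h6 : HasDerivAt (fun t : ℝ => f (Y w δ (x + t • Pi.single a (1 : ℝ))))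
      (fderiv ℝ f (Y w δ x) ((hd w δ (ph δ (x a)) * (1 - 2 * δ)) • Pi.single a (1 : ℝ))) 0 := by
    have h4 := (hf.differentiable one_ne_zero
      (Y w δ (x + (0 : ℝ) • Pi.single a (1 : ℝ)))).hasFDerivAt
    have h5 := h4.comp_hasDerivAt 0 (Y_deriv hw hQ h0 h1 x a)
    rw [e0] at h5
    exact h5
  have h7 := h3.unique h6
  unfold pd
  rw [h7, map_smul, smul_eq_mul]

/-- the limit map -/
noncomputable def Yq (w : ℝ → ℝ) (x : Fin n → ℝ) : Fin n → ℝ := fun i => qt w (x i)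

theorem Y_tendsto (hw : LD w) (hQ : S_Q) {x : Fin n → ℝ} (hx : ∀ i, x i ∈ Ioo (0 : ℝ) 1) :
    Tendsto (fun δ => Y w δ x) (𝓝[>] 0) (𝓝 (Yq w x)) := by
  obtain ⟨-, -, h3, -, -, -⟩ := hQ w hw
  rw [tendsto_pi_nhds]
  intro i
  have h4 : Tendsto (fun δ : ℝ => ph δ (x i)) (𝓝[>] 0) (𝓝 (x i)) := by
    have h5 : Continuous fun δ : ℝ => ph δ (x i) := by
      unfold ph
      fun_prop
    have h6 := (h5.tendsto 0).mono_left (nhdsWithin_le_nhds (s := Ioi 0))
    simpa [ph] using h6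
  have h7 := ((h3 _ (hx i)).2.1.continuousAt.tendsto).comp h4
  refine h7.congr' ?_
  have h8 : ∀ᶠ δ : ℝ in 𝓝[>] 0, δ < 1 / 2 :=
    nhdsWithin_le_nhds (Iio_mem_nhds (by norm_num))
  filter_upwards [h8, self_mem_nhdsWithin] with δ h9 h10
  show qt w (ph δ (x i)) = tau w δ (ph δ (x i))
  rw [tau_eq hw hQ h10 h9 (ph_mem h9 ⟨(hx i).1.le, (hx i).2.le⟩)]

/-- convergence of the integrals -/
theorem int_tendsto (hw : LD w) (hQ : S_Q) (R : Fin n → Fin n → Prop) {G : (Fin n → ℝ) → ℝ}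
    (hG : Continuous G) {B : ℝ} (hB : ∀ x, |G x| ≤ B) :
    Tendsto (fun δ => ∫ x in OPp R, G (Y w δ x)) (𝓝[>] 0) (𝓝 (∫ x in OPp R, G (Yq w x))) := by
  have hfin : IsFiniteMeasure (volume.restrict (OPp R)) :=
    ⟨by
      rw [Measure.restrict_apply_univ]
      exact (Pool.Agent.R372.OP.SYM.cpK R).measure_lt_top⟩
  have h8 : ∀ᶠ δ : ℝ in 𝓝[>] 0, δ < 1 / 2 :=
    nhdsWithin_le_nhds (Iio_mem_nhds (by norm_num))
  refine tendsto_integral_filter_of_dominated_convergence (fun _ => B) ?_ ?_ (integrable_const B) ?_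
  · filter_upwards [h8, self_mem_nhdsWithin] with δ h9 h10
    exact (hG.comp (Y_cd hw hQ h10 h9).continuous).aestronglyMeasurable
  · exact Eventually.of_forall fun δ => Eventually.of_forall fun x => hB _
  · have h1 : ∀ᵐ x ∂(volume.restrict (OPp R)), x ∈ pi univ fun _ : Fin n => Ioo (0 : ℝ) 1 := by
      have h2 : (pi univ fun _ : Fin n => Ioo (0 : ℝ) 1) =ᵐ[volume] Icc (0 : Fin n → ℝ) 1 :=
        Measure.univ_pi_Ioo_ae_eq_Icc (μ := fun _ : Fin n => (volume : Measure ℝ)) (f := 0) (g := 1)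
      rw [ae_restrict_iff' (Pool.Agent.R372.OP.SYM.clK R).measurableSet]
      filter_upwards [h2] with x hx hxR
      have h3 : x ∈ Icc (0 : Fin n → ℝ) 1 := ⟨fun i => (hxR.1 i).1, fun i => (hxR.1 i).2⟩
      exact (eq_iff_iff.1 hx).2 h3
    filter_upwards [h1] with x hx
    exact (hG.tendsto _).comp (Y_tendsto hw hQ fun i => hx i (mem_univ i))

theorem qt_aem (hw : LD w) (hQ : S_Q) :
    AEMeasurable (qt w) (volume.restrict (Ioo (0 : ℝ) 1)) := by
  obtain ⟨-, -, h3, -, -, -⟩ := hQ w hw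
  apply ContinuousOn.aemeasurable _ measurableSet_Ioo
  intro x hx
  exact (h3 x hx).2.1.continuousAt.continuousWithinAt

theorem ord_meas (R : Fin n → Fin n → Prop) : MeasurableSet (ord R) := by
  have h : ord R = ⋂ i, ⋂ j, ⋂ (_ : R i j), {x : Fin n → ℝ | x i ≤ x j} := by
    ext x
    simp only [ord, mem_ofPred_eq, mem_iInter]
  rw [h]
  exact (isClosed_iInter fun i => isClosed_iInter fun j => isClosed_iInter fun _ =>
        isClosed_le (continuous_apply i) (continuous_apply j)).measurableSet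

/-- the change of variables -/
theorem change (hw : LD w) (hQ : S_Q) (R : Fin n → Fin n → Prop) {G : (Fin n → ℝ) → ℝ}
    (hG : Measurable G) : ∫ x in OPp R, G (Yq w x) = ∫ x in ord R, G x ∂(pn w n) := by
  obtain ⟨-, -, h3, h4, h5, -⟩ := hQ w hw
  have hq := qt_aem hw hQ
  set lam : Measure ℝ := volume.restrict (Ioo (0 : ℝ) 1) with hlam
  have hnu : IsProbabilityMeasure (nu w) := by
    rw [← h5]
    have : IsProbabilityMeasure lam := ⟨by rw [hlam]; simp⟩
    exact Measure.isProbabilityMeasure_map hq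
  have hmap : (Measure.pi fun _ : Fin n => lam).map (Yq w) = pn w n := by
    have hs : ∀ _ : Fin n, SigmaFinite (lam.map (qt w)) := fun _ => by
      rw [h5]
      infer_instance
    have h6 := Measure.pi_map_pi (μ := fun _ : Fin n => lam) (f := fun _ => qt w) (hμ := hs)
      (fun _ => hq)
    unfold pn
    rw [← h5]
    exact h6
  have hpi : (Measure.pi fun _ : Fin n => lam) =
      (volume : Measure (Fin n → ℝ)).restrict (pi univ fun _ => Ioo (0 : ℝ) 1) := by
    rw [hlam, volume_pi]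
    exact (Measure.restrict_pi_pi (μ := fun _ : Fin n => (volume : Measure ℝ))
      (fun _ => Ioo (0 : ℝ) 1)).symm
  have hQm : AEMeasurable (Yq (n := n) w) (Measure.pi fun _ : Fin n => lam) := by
    apply aemeasurable_pi_lambda
    intro i
    exact hq.comp_quasiMeasurePreserving (Measure.quasiMeasurePreserving_eval _ i)
  rw [← integral_indicator (ord_meas R), ← hmap, integral_map hQm
    ((hG.indicator (ord_meas R)).aestronglyMeasurable), hpi]
  have hae : (OPp R : Set (Fin n → ℝ)) =ᵐ[volume]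
      (((pi univ fun _ : Fin n => Ioo (0 : ℝ) 1) ∩ ord R : Set (Fin n → ℝ))) := by
    have h2 : (pi univ fun _ : Fin n => Ioo (0 : ℝ) 1) =ᵐ[volume] Icc (0 : Fin n → ℝ) 1 :=
      Measure.univ_pi_Ioo_ae_eq_Icc (μ := fun _ : Fin n => (volume : Measure ℝ)) (f := 0) (g := 1)
    filter_upwards [h2] with x hx
    apply eq_iff_iff.2
    constructor
    · intro hxR
      exact ⟨(eq_iff_iff.1 hx).2 ⟨fun i => (hxR.1 i).1, fun i => (hxR.1 i).2⟩, hxR.2⟩
    · rintro ⟨hx1, hx2⟩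
      have h7 : x ∈ Icc (0 : Fin n → ℝ) 1 := (eq_iff_iff.1 hx).1 hx1
      exact ⟨fun i => ⟨h7.1 i, h7.2 i⟩, hx2⟩
  rw [Measure.restrict_congr_set hae, inter_comm, ← Measure.restrict_restrict (ord_meas R),
    ← integral_indicator (ord_meas R)]
  apply setIntegral_congr_fun (MeasurableSet.univ_pi fun _ => measurableSet_Ioo)
  intro x hx
  have hiff : Yq w x ∈ ord R ↔ x ∈ ord R := by
    constructor
    · intro h i j hij
      exact (h4.le_iff_le (hx i (mem_univ i)) (hx j (mem_univ j))).1 (h i j hij)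
    · intro h i j hij
      exact (h4.le_iff_le (hx i (mem_univ i)) (hx j (mem_univ j))).2 (h i j hij)
  show (ord R).indicator (fun x => G (Yq w x)) x = (ord R).indicator G (Yq w x)
  by_cases hxo : x ∈ ord R
  · rw [indicator_of_mem hxo, indicator_of_mem (hiff.2 hxo)]
  · rw [indicator_of_notMem hxo, indicator_of_notMem (fun h => hxo (hiff.1 h))]

theorem pd_cont {f : (Fin n → ℝ) → ℝ} (hf : ContDiff ℝ 1 f) (a : Fin n) : Continuous (pd f a) :=
  (hf.continuous_fderiv one_ne_zero).clm_apply continuous_const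

theorem tr (hQ : S_Q) (hL : S_LIM) : S_TR := by
  intro w K hw hK hgood n R hR f hf hcs
  obtain ⟨-, -, h3, -, -, -⟩ := hQ w hw
  -- bounds
  obtain ⟨B, hB⟩ := hcs.exists_bound_of_continuous hf.continuous
  have hcd : HasCompactSupport (fderiv ℝ f) := hcs.fderiv (𝕜 := ℝ)
  obtain ⟨B', hB'⟩ := hcd.exists_bound_of_continuous (hf.continuous_fderiv one_ne_zero)
  have hpdB : ∀ x a, |pd f a x| ≤ B' := by
    intro x a
    unfold pd
    rw [← Real.norm_eq_abs]
    calc ‖fderiv ℝ f x (Pi.single a 1)‖ ≤ ‖fderiv ℝ f x‖ * ‖(Pi.single a 1 : Fin n → ℝ)‖ :=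
          ContinuousLinearMap.le_opNorm _ _
      _ = ‖fderiv ℝ f x‖ := by rw [Pi.norm_single, norm_one, mul_one]
      _ ≤ B' := hB' x
  set E : (Fin n → ℝ) → ℝ := fun x => ∑ a, pd f a x ^ 2 with hE
  have hEc : Continuous E := continuous_finsetSum _ fun a _ => (pd_cont hf a).pow 2
  have hEB : ∀ x, |E x| ≤ n * B' ^ 2 := by
    intro x
    rw [abs_of_nonneg (Finset.sum_nonneg fun a _ => sq_nonneg _)]
    calc E x ≤ ∑ _a : Fin n, B' ^ 2 := by
          apply Finset.sum_le_sum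
          intro a _
          rw [← sq_abs]
          exact pow_le_pow_left₀ (abs_nonneg _) (hpdB x a) 2
      _ = n * B' ^ 2 := by simp
  have hfB : ∀ x, |f x| ≤ B := fun x => by
    rw [← Real.norm_eq_abs]
    exact hB x
  have hf2B : ∀ x, |f x ^ 2| ≤ B ^ 2 := fun x => by
    rw [abs_pow]
    exact pow_le_pow_left₀ (abs_nonneg _) (hfB x) 2
  -- limits
  have t1 := int_tendsto hw hQ R hf.continuous hfB
  have t2 := int_tendsto hw hQ R (hf.continuous.pow 2) hf2B
  have t3 := int_tendsto hw hQ R hEc hEB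
  rw [change hw hQ R hf.continuous.measurable] at t1
  rw [change hw hQ R (hf.continuous.pow 2).measurable] at t2
  rw [change hw hQ R hEc.measurable] at t3
  have hV : (pn w n (ord R)).toReal = (volume (OPp R)).toReal := by
    have h4 := change hw hQ R (G := fun _ => (1 : ℝ)) measurable_const
    rw [setIntegral_const, setIntegral_const] at h4
    simp only [smul_eq_mul, mul_one, Measure.real] at h4
    exact h4.symm
  rw [hV]
  set V := (volume (OPp R)).toReal with hVdef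
  have hV0 : 0 ≤ V := ENNReal.toReal_nonneg
  have tL := (t2.const_mul V).sub (t1.pow 2)
  have tR := (t3.const_mul K).const_mul V
  refine le_of_tendsto_of_tendsto tL tR ?_
  have h8 : ∀ᶠ δ : ℝ in 𝓝[>] 0, δ < 1 / 2 :=
    nhdsWithin_le_nhds (Iio_mem_nhds (by norm_num))
  filter_upwards [h8, self_mem_nhdsWithin, hgood] with δ h1 h0 hg
  have h0' : 0 < δ := h0
  obtain ⟨b, hb, hb0, hbW, hbK⟩ := hg
  have hgc : ContDiff ℝ 1 (fun x : Fin n → ℝ => f (Y w δ x)) := hf.comp (Y_cd hw hQ h0' h1)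
  have hlim := hL b hb hb0 hbW n R hR (fun x => f (Y w δ x)) hgc
  refine hlim.trans ?_
  apply mul_le_mul_of_nonneg_left _ hV0
  rw [← integral_const_mul]
  have hcomp : IsCompact (OPp R) := Pool.Agent.R372.OP.SYM.cpK R
  have hmeas : MeasurableSet (OPp R) := (Pool.Agent.R372.OP.SYM.clK R).measurableSet
  apply integral_mono_ae
  · have hcon : ContinuousOn (fun x : Fin n → ℝ => ∑ a, b (x a) *
        pd (fun x => f (Y w δ x)) a x ^ 2) (OPp R) := by
      apply continuousOn_finsetSum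
      intro a _
      apply ContinuousOn.mul
      · exact hb.comp (continuous_apply a).continuousOn fun x hx => hx.1 a
      · exact ((pd_cont hgc a).pow 2).continuousOn
    exact hcon.integrableOn_compact hcomp
  · have hcon : Continuous fun x : Fin n → ℝ => K * E (Y w δ x) :=
      continuous_const.mul (hEc.comp (Y_cd hw hQ h0' h1).continuous)
    exact hcon.continuousOn.integrableOn_compact hcomp
  · have h2 : (pi univ fun _ : Fin n => Ioo (0 : ℝ) 1) =ᵐ[volume] Icc (0 : Fin n → ℝ) 1 :=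
      Measure.univ_pi_Ioo_ae_eq_Icc (μ := fun _ : Fin n => (volume : Measure ℝ)) (f := 0) (g := 1)
    show ∀ᵐ x ∂(volume.restrict (OPp R)), _
    rw [ae_restrict_iff' hmeas]
    filter_upwards [h2] with x hx hxR
    have hxI : x ∈ pi univ fun _ : Fin n => Ioo (0 : ℝ) 1 :=
      (eq_iff_iff.1 hx).2 ⟨fun i => (hxR.1 i).1, fun i => (hxR.1 i).2⟩
    show ∑ a, b (x a) * pd (fun x => f (Y w δ x)) a x ^ 2 ≤ K * E (Y w δ x)
    rw [hE, Finset.mul_sum]
    apply Finset.sum_le_sum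
    intro a _
    have hxa := hxI a (mem_univ a)
    have hpm := ph_mem h1 (hxR.1 a)
    have hpm' : ph δ (x a) ∈ Ioo (0 : ℝ) 1 :=
      ⟨lt_of_lt_of_le h0' hpm.1, lt_of_le_of_lt hpm.2 (by linarith)⟩
    have hpos := (h3 _ hpm').1
    rw [pd_comp hw hQ h0' h1 hf x a]
    have hbk := hbK _ hxa
    have e1 : hd w δ (ph δ (x a)) = (w (qt w (ph δ (x a))))⁻¹ := by
      unfold hd
      rw [cl_eq hpm]
    rw [e1]
    have e2 : b (x a) * ((w (qt w (ph δ (x a))))⁻¹ * (1 - 2 * δ) * pd f a (Y w δ x)) ^ 2 =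
        b (x a) * (1 - 2 * δ) ^ 2 * ((w (qt w (ph δ (x a)))) ^ 2)⁻¹ * pd f a (Y w δ x) ^ 2 := by
      rw [mul_pow, mul_pow, inv_pow]
      ring
    rw [e2]
    apply mul_le_mul_of_nonneg_right _ (sq_nonneg _)
    rw [← div_eq_mul_inv, div_le_iff₀ (by positivity)]
    exact hbk

end Pool.Agent.J4H58.OC.Tr
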